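import Mathlib

/-!
# Counting polynomials over `F[t]`
-/

set_option autoImplicit false

open Polynomial

namespace Pool.Agent.R414.FF

variable {F : Type*} [Field F]

theorem swap_coeff (p : F[X][X]) (i j : ℕ) :
    ((Bivariate.swap p).coeff i).coeff j = (p.coeff j).coeff i := by
  induction p using Polynomial.induction_on' with
  | add p q hp hq => simp only [map_add, coeff_add, hp, hq]
  | monomial n a =>
    induction a using Polynomial.induction_on' with
    | add a b ha hb => simp only [map_add, coeff_add, ha, hb]
    | monomial m r =>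
      rw [Bivariate.swap_monomial_monomial, coeff_monomial, coeff_monomial]
      by_cases h1 : m = i
      · by_cases h2 : n = j
        · subst h1 h2
          simp
        · subst h1
          rw [if_pos rfl, if_neg h2, coeff_monomial, if_neg h2, coeff_zero]
      · by_cases h2 : n = j
        · subst h2
          rw [if_neg h1, if_pos rfl, coeff_monomial, if_neg h1, coeff_zero]
        · rw [if_neg h1, if_neg h2]
          simp

/-- the degree in `t` of a polynomial over `F[t]` -/
noncomputable def tdeg (M : F[X][X]) : ℕ := M.support.sup fun j => (M.coeff j).natDegree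

theorem tdeg_le_iff {M : F[X][X]} {h : ℕ} : tdeg M ≤ h ↔ ∀ j, (M.coeff j).natDegree ≤ h := by
  unfold tdeg
  rw [Finset.sup_le_iff]
  constructor
  · intro H j
    by_cases hj : M.coeff j = 0
    · rw [hj]; simp
    · exact H j (mem_support_iff.mpr hj)
  · intro H j _
    exact H j

theorem tdeg_eq (M : F[X][X]) : tdeg M = (Bivariate.swap M).natDegree := by
  apply le_antisymm
  · rw [tdeg_le_iff]
    intro j
    rw [natDegree_le_iff_coeff_eq_zero]
    intro i hi
    rw [← swap_coeff, coeff_eq_zero_of_natDegree_lt hi, coeff_zero]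
  · rw [natDegree_le_iff_coeff_eq_zero]
    intro i hi
    ext j
    rw [swap_coeff, coeff_zero]
    exact coeff_eq_zero_of_natDegree_lt (lt_of_le_of_lt (tdeg_le_iff.mp le_rfl j) hi)

theorem tdeg_mul {M N : F[X][X]} (hM : M ≠ 0) (hN : N ≠ 0) : tdeg (M * N) = tdeg M + tdeg N := by
  rw [tdeg_eq, tdeg_eq, tdeg_eq, map_mul, natDegree_mul]
  · simpa using hM
  · simpa using hN

theorem tdeg_le_of_dvd {M N : F[X][X]} (h : M ∣ N) (hN : N ≠ 0) : tdeg M ≤ tdeg N := by
  obtain ⟨c, rfl⟩ := h
  rw [tdeg_mul (left_ne_zero_of_mul hN) (right_ne_zero_of_mul hN)]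
  omega

/-- the polynomials in `x` of degree `< a` with coefficients of degree `< b` in `t` -/
def U (F : Type*) [Field F] (a b : ℕ) : Set F[X][X] :=
  {u | u.degree < a ∧ ∀ j, (u.coeff j).degree < b}

theorem U_card [Fintype F] (a b : ℕ) :
    (U F a b).Finite ∧ (U F a b).ncard = Fintype.card F ^ (a * b) := by
  classical
  let φ : U F a b → (Fin a → Fin b → F) := fun u i j => (u.1.coeff i).coeff j
  have hφ : Function.Bijective φ := by
    constructor
    · rintro ⟨u, hu⟩ ⟨v, hv⟩ huv
      apply Subtype.ext
      ext i j
      by_cases hi : i < a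
      · by_cases hj : j < b
        · exact congrFun (congrFun huv ⟨i, hi⟩) ⟨j, hj⟩
        · have hj' : b ≤ j := not_lt.mp hj
          rw [coeff_eq_zero_of_degree_lt (lt_of_lt_of_le (hu.2 i) (by exact_mod_cast hj')),
            coeff_eq_zero_of_degree_lt (lt_of_lt_of_le (hv.2 i) (by exact_mod_cast hj'))]
      · have hi' : a ≤ i := not_lt.mp hi
        rw [coeff_eq_zero_of_degree_lt (lt_of_lt_of_le hu.1 (by exact_mod_cast hi')),
          coeff_eq_zero_of_degree_lt (lt_of_lt_of_le hv.1 (by exact_mod_cast hi'))]
    · intro c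
      let e : ℕ → F[X] := fun i => if h : i < a then ∑ j : Fin b, monomial (j : ℕ) (c ⟨i, h⟩ j) else 0
      have he : ∀ i, (e i).degree < b := by
        intro i
        simp only [e]
        split_ifs with h
        · rw [degree_lt_iff_coeff_zero]
          intro m hm
          rw [finsetSum_coeff]
          apply Finset.sum_eq_zero
          intro j _
          rw [coeff_monomial, if_neg]
          have := j.2
          omega
        · rw [degree_zero]
          exact WithBot.bot_lt_coe b
      have hec : ∀ i : Fin a, ∀ j : Fin b, (e i).coeff j = c i j := by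
        intro i j
        simp only [e]
        rw [dif_pos i.2, finsetSum_coeff, Finset.sum_eq_single j]
        · rw [coeff_monomial, if_pos rfl]
        · intro j' _ hj'
          rw [coeff_monomial, if_neg]
          exact fun h => hj' (Fin.ext h)
        · intro h
          exact absurd (Finset.mem_univ _) h
      let u : F[X][X] := ∑ i : Fin a, monomial (i : ℕ) (e i)
      have huc : ∀ i, u.coeff i = e i := by
        intro i
        simp only [u]
        rw [finsetSum_coeff]
        by_cases hi : i < a
        · rw [Finset.sum_eq_single (⟨i, hi⟩ : Fin a)]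
          · rw [coeff_monomial, if_pos rfl]
          · intro j' _ hj'
            rw [coeff_monomial, if_neg]
            exact fun h => hj' (Fin.ext h)
          · intro h
            exact absurd (Finset.mem_univ _) h
        · have : e i = 0 := by simp only [e]; rw [dif_neg hi]
          rw [this]
          apply Finset.sum_eq_zero
          intro j _
          rw [coeff_monomial, if_neg]
          have := j.2
          omega
      refine ⟨⟨u, ?_, ?_⟩, ?_⟩
      · rw [degree_lt_iff_coeff_zero]
        intro m hm
        rw [huc]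
        simp only [e]
        rw [dif_neg (by omega)]
      · intro j
        rw [huc]
        exact he j
      · funext i j
        simp only [φ]
        rw [huc, hec]
  have hcard : Nat.card (U F a b) = Fintype.card F ^ (a * b) := by
    rw [Nat.card_eq_of_bijective φ hφ, Nat.card_eq_fintype_card]
    simp only [Fintype.card_fun, Fintype.card_fin]
    rw [← pow_mul, mul_comm]
  refine ⟨?_, hcard⟩
  rw [← Set.finite_coe_iff]
  exact Finite.of_injective φ hφ.1

/-- the monic polynomials of degree `d` in `x` with coefficients of degree `< n` in `t` -/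
def Mon (F : Type*) [Field F] (d n : ℕ) : Set F[X][X] :=
  {f | f.Monic ∧ f.natDegree = d ∧ ∀ j, (f.coeff j).degree < n}

theorem sub_mem {d n : ℕ} {f g : F[X][X]} (hf : f ∈ Mon F d n) (hg : g ∈ Mon F d n) :
    f - g ∈ U F d n := by
  refine ⟨?_, ?_⟩
  · have h1 : f.degree = d := by rw [degree_eq_natDegree hf.1.ne_zero, hf.2.1]
    have h2 : g.degree = d := by rw [degree_eq_natDegree hg.1.ne_zero, hg.2.1]
    rw [← h1]
    exact degree_sub_lt_left (h1.trans h2.symm) hf.1.ne_zero (by rw [hf.1.leadingCoeff, hg.1.leadingCoeff])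
  · intro j
    rw [coeff_sub]
    exact lt_of_le_of_lt (degree_sub_le _ _) (max_lt (hf.2.2 j) (hg.2.2 j))

theorem tdeg_lt_of_mem {a b : ℕ} {u : F[X][X]} (hu : u ∈ U F a b) (h0 : u ≠ 0) : tdeg u < b := by
  have hb : 0 < b := by
    rcases Nat.eq_zero_or_pos b with rfl | h
    · exfalso
      apply h0
      ext1 j
      have := hu.2 j
      rw [coeff_zero]
      rw [← degree_eq_bot]
      rw [Nat.cast_zero] at this
      exact Nat.WithBot.lt_zero_iff.mp this
    · exact h
  have : tdeg u ≤ b - 1 := by
    rw [tdeg_le_iff]
    intro j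
    have h1 := hu.2 j
    by_cases hj : u.coeff j = 0
    · rw [hj]; simp
    · have := (natDegree_lt_iff_degree_lt hj).mpr h1
      omega
  omega

theorem div_mem {M u : F[X][X]} (hM : M.Monic) {d n : ℕ} (h : M * u ∈ U F d n) :
    u ∈ U F (d - M.natDegree) (n - tdeg M) := by
  by_cases hu : u = 0
  · subst hu
    refine ⟨?_, fun j => ?_⟩
    · rw [degree_zero]; exact WithBot.bot_lt_coe _
    · rw [coeff_zero, degree_zero]; exact WithBot.bot_lt_coe _
  · have hMu : M * u ≠ 0 := mul_ne_zero hM.ne_zero hu
    have h1 := (natDegree_lt_iff_degree_lt hMu).mpr h.1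
    rw [natDegree_mul hM.ne_zero hu] at h1
    have h2 := tdeg_lt_of_mem h hMu
    rw [tdeg_mul hM.ne_zero hu] at h2
    refine ⟨(natDegree_lt_iff_degree_lt hu).mp (by omega), fun j => ?_⟩
    have h3 := tdeg_le_iff.mp (le_refl (tdeg u)) j
    refine lt_of_le_of_lt degree_le_natDegree ?_
    have : (u.coeff j).natDegree < n - tdeg M := by omega
    exact_mod_cast this

/-- a set of polynomials congruent modulo a monic polynomial is small -/
theorem fiber [Fintype F] {M : F[X][X]} (hM : M.Monic) {d n : ℕ} {S : Set F[X][X]}
    (hS : ∀ f ∈ S, f ∈ Mon F d n) (hS' : ∀ f ∈ S, ∀ g ∈ S, M ∣ f - g) :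
    S.Finite ∧ S.ncard ≤ Fintype.card F ^ ((d - M.natDegree) * (n - tdeg M)) := by
  classical
  rcases S.eq_empty_or_nonempty with rfl | ⟨f₀, hf₀⟩
  · simp
  · have key : ∀ f ∈ S, (f - f₀) = M * ((f - f₀) /ₘ M) := by
      intro f hf
      have h1 := hS' f hf f₀ hf₀
      have h2 := (modByMonic_eq_zero_iff_dvd hM).mpr h1
      have h3 := modByMonic_add_div (f - f₀) M
      rw [h2, zero_add] at h3
      exact h3.symm
    have hmaps : Set.MapsTo (fun f => (f - f₀) /ₘ M) S (U F (d - M.natDegree) (n - tdeg M)) := by
      intro f hf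
      apply div_mem hM
      rw [← key f hf]
      exact sub_mem (hS f hf) (hS f₀ hf₀)
    have hinj : Set.InjOn (fun f => (f - f₀) /ₘ M) S := by
      intro f hf g hg hfg
      have h1 := key f hf
      have h2 := key g hg
      simp only at hfg
      rw [hfg, ← h2] at h1
      exact sub_left_inj.mp h1
    obtain ⟨hfin, hc⟩ := U_card (F := F) (d - M.natDegree) (n - tdeg M)
    refine ⟨Set.Finite.of_injOn hmaps hinj hfin, ?_⟩
    rw [← hc]
    exact Set.ncard_le_ncard_of_injOn _ hmaps hinj hfin

/-- the monic polynomials in a given residue class modulo `M` -/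
def Cls (F : Type*) [Field F] (d n : ℕ) (M r : F[X][X]) : Set F[X][X] :=
  {f | f ∈ Mon F d n ∧ M ∣ f - r}

theorem cls_card_le [Fintype F] {M : F[X][X]} (hM : M.Monic) (d n : ℕ) (r : F[X][X]) :
    (Cls F d n M r).Finite ∧
      (Cls F d n M r).ncard ≤ Fintype.card F ^ ((d - M.natDegree) * (n - tdeg M)) := by
  apply fiber hM
  · intro f hf
    exact hf.1
  · intro f hf g hg
    have := dvd_sub hf.2 hg.2
    rwa [sub_sub_sub_cancel_right] at this

theorem cls_card [Fintype F] {M : F[X][X]} (hM : M.Monic) {d : ℕ} (hd : M.natDegree ≤ d)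
    {r : F[X][X]} (hr : r.degree < M.degree) : ∃ n₁ : ℕ, ∀ n, n₁ ≤ n →
      (Cls F d n M r).ncard = Fintype.card F ^ ((d - M.natDegree) * (n - tdeg M)) := by
  classical
  set P := X ^ (d - M.natDegree) * M with hP
  have hPm : P.Monic := (monic_X_pow _).mul hM
  have hPd : P.natDegree = d := by
    rw [hP, (monic_X_pow _).natDegree_mul hM, natDegree_X_pow]
    omega
  have hPdeg : P.degree = d := by rw [degree_eq_natDegree hPm.ne_zero, hPd]
  refine ⟨tdeg (P + r) + tdeg M + 1, fun n hn => ?_⟩
  apply le_antisymm (cls_card_le hM d n r).2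
  obtain ⟨hfin, hc⟩ := U_card (F := F) (d - M.natDegree) (n - tdeg M)
  rw [← hc]
  refine Set.ncard_le_ncard_of_injOn (fun u => P + r + M * u) ?_ ?_ (cls_card_le hM d n r).1
  · intro u hu
    have hMu : (M * u).degree < d := by
      by_cases h0 : u = 0
      · rw [h0, mul_zero, degree_zero]; exact WithBot.bot_lt_coe _
      · have h1 := (natDegree_lt_iff_degree_lt h0).mpr hu.1
        rw [← natDegree_lt_iff_degree_lt (mul_ne_zero hM.ne_zero h0), natDegree_mul hM.ne_zero h0]
        omega
    have hrd : r.degree < d := by
      refine lt_of_lt_of_le hr ?_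
      rw [degree_eq_natDegree hM.ne_zero]
      exact_mod_cast hd
    have hlt : (r + M * u).degree < P.degree := by
      rw [hPdeg]
      exact lt_of_le_of_lt (degree_add_le _ _) (max_lt hrd hMu)
    have heq : P + r + M * u = P + (r + M * u) := by ring
    have hmon : (P + r + M * u).Monic := by
      rw [heq]
      exact hPm.add_of_left hlt
    refine ⟨⟨hmon, ?_, ?_⟩, ?_⟩
    · show (P + r + M * u).natDegree = d
      rw [heq, natDegree_add_eq_left_of_degree_lt hlt, hPd]
    · intro j
      show ((P + r + M * u).coeff j).degree < n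
      rw [coeff_add]
      refine lt_of_le_of_lt (degree_add_le _ _) (max_lt ?_ ?_)
      · refine lt_of_le_of_lt degree_le_natDegree ?_
        have := tdeg_le_iff.mp (le_refl (tdeg (P + r))) j
        have h2 : ((P + r).coeff j).natDegree < n := by omega
        exact_mod_cast h2
      · by_cases h0 : u = 0
        · rw [h0, mul_zero, coeff_zero, degree_zero]; exact WithBot.bot_lt_coe _
        · refine lt_of_le_of_lt degree_le_natDegree ?_
          have h1 := tdeg_le_iff.mp (le_refl (tdeg (M * u))) j
          rw [tdeg_mul hM.ne_zero h0] at h1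
          have h2 := tdeg_lt_of_mem hu h0
          have h3 : ((M * u).coeff j).natDegree < n := by omega
          exact_mod_cast h3
    · show M ∣ P + r + M * u - r
      have : P + r + M * u - r = (X ^ (d - M.natDegree) + u) * M := by rw [hP]; ring
      rw [this]
      exact Dvd.intro_left _ rfl
  · intro u _ v _ huv
    simp only at huv
    have := add_left_cancel huv
    exact mul_left_cancel₀ hM.ne_zero this

end Pool.Agent.R414.FF
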