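import Pool.Agent.R414.FF.A

/-!
# Preperiodic points of polynomials over `F[t]`: integrality and heights
-/

set_option autoImplicit false

open Polynomial

namespace Pool.Agent.R414.FF

/-- an algebraic closure of `F(t)` -/
abbrev Om (F : Type*) [Field F] := AlgebraicClosure (RatFunc F)

/-- the map `x ↦ f(x)` on the algebraic closure -/
noncomputable def act {F : Type*} [Field F] (f : F[X][X]) (x : Om F) : Om F := aeval x f

/-- the preperiodic points of degree at most `D` over `F(t)` -/
def Pre {F : Type*} [Field F] (D : ℕ) (f : F[X][X]) : Set (Om F) :=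
  {x | (∃ m n : ℕ, m < n ∧ (act f)^[m] x = (act f)^[n] x) ∧
    (minpoly (RatFunc F) x).natDegree ≤ D}

variable {F : Type*} [Field F]

/-- abstract: finite orbits of a monic polynomial with small coefficients are small -/
theorem orbit_le {L Γ : Type*} [Field L] [LinearOrderedCommGroupWithZero Γ] (v : Valuation L Γ)
    {ρ : Γ} (hρ : 1 ≤ ρ) {d : ℕ} (hd : 2 ≤ d) (a : ℕ → L) (ha : ∀ j, v (a j) ≤ ρ)
    (φ : L → L) (hφ : ∀ x, φ x = x ^ d + ∑ j ∈ Finset.range d, a j * x ^ j)
    {x : L} {m n : ℕ} (hmn : m < n) (h : φ^[m] x = φ^[n] x) : v x ≤ ρ := by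
  classical
  -- the largest point of the orbit
  have hn : (Finset.range n).Nonempty := ⟨0, Finset.mem_range.mpr (by omega)⟩
  obtain ⟨i, hi, hmax⟩ := Finset.exists_max_image (Finset.range n) (fun i => v (φ^[i] x)) hn
  rw [Finset.mem_range] at hi
  set y := φ^[i] x with hy
  have hy1 : v (φ y) ≤ v y := by
    have e1 : φ y = φ^[i + 1] x := by rw [Function.iterate_succ_apply']
    rw [e1]
    by_cases h1 : i + 1 < n
    · exact hmax _ (Finset.mem_range.mpr h1)
    · have h2 : i + 1 = n := by omega
      rw [h2, ← h]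
      exact hmax _ (Finset.mem_range.mpr hmn)
  have hxy : v x ≤ v y := hmax 0 (Finset.mem_range.mpr (by omega))
  refine hxy.trans ?_
  by_contra hcon
  push Not at hcon
  have hy0 : 1 < v y := lt_of_le_of_lt hρ hcon
  have hypos : 0 < v y := lt_trans zero_lt_one hy0
  have hsum : v (∑ j ∈ Finset.range d, a j * y ^ j) < v (y ^ d) := by
    apply Valuation.map_sum_lt
    · rw [map_pow]
      exact (pow_pos hypos d).ne'
    · intro j hj
      rw [Finset.mem_range] at hj
      rw [map_mul, map_pow, map_pow]
      calc v (a j) * v y ^ j ≤ ρ * v y ^ j := by gcongr; exact ha j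
        _ < v y * v y ^ j := by
          apply mul_lt_mul_of_pos_right hcon (pow_pos hypos j)
        _ = v y ^ (j + 1) := by rw [pow_succ, mul_comm]
        _ ≤ v y ^ d := pow_le_pow_right₀ hy0.le (by omega)
  have h3 : v (φ y) = v (y ^ d) := by
    rw [hφ]
    exact Valuation.map_add_eq_of_lt_left v hsum
  rw [h3, map_pow] at hy1
  have h4 : v y < v y ^ d := by
    calc v y = v y ^ 1 := (pow_one _).symm
      _ < v y ^ d := pow_lt_pow_right₀ hy0 (by omega)
  exact absurd hy1 (not_le.mpr h4)

theorem act_eq {f : F[X][X]} {d : ℕ} (hf : f.Monic) (hd : f.natDegree = d) (x : Om F) :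
    act f x = x ^ d + ∑ j ∈ Finset.range d, algebraMap F[X] (Om F) (f.coeff j) * x ^ j := by
  unfold act
  rw [aeval_eq_sum_range, Finset.sum_range_succ, hd, add_comm]
  congr 1
  · have : f.coeff d = 1 := by rw [← hd]; exact hf
    rw [this, one_smul]
  · apply Finset.sum_congr rfl
    intro j _
    rw [Algebra.smul_def]

theorem iter_eq (f : F[X][X]) (x : Om F) (m : ℕ) :
    (act f)^[m] x = aeval x ((f.comp)^[m] X) := by
  induction m with
  | zero => simp
  | succ m ih =>
    rw [Function.iterate_succ_apply', Function.iterate_succ_apply', ih, aeval_comp]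
    rfl

theorem integral_of_iter {f : F[X][X]} {d : ℕ} (hf : f.Monic) (hd : f.natDegree = d) (h2 : 2 ≤ d)
    {x : Om F} {m n : ℕ} (hmn : m < n) (h : (act f)^[m] x = (act f)^[n] x) :
    IsIntegral F[X] x := by
  by_contra hx
  let R : Subring (Om F) := (integralClosure F[X] (Om F)).toSubring
  have hR : IsIntegrallyClosedIn R (Om F) :=
    inferInstanceAs (IsIntegrallyClosedIn (integralClosure F[X] (Om F)) (Om F))
  obtain ⟨V, hV, hxV⟩ := Subring.exists_le_valuationSubring_of_isIntegrallyClosedIn (R := R) (x := x) hx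
  apply hxV
  rw [← V.valuation_le_one_iff]
  refine orbit_le V.valuation le_rfl h2 (fun j => algebraMap F[X] (Om F) (f.coeff j)) ?_ (act f)
    (act_eq hf hd) hmn h
  intro j
  rw [V.valuation_le_one_iff]
  apply hV
  exact isIntegral_algebraMap

/-- the variable `t` -/
noncomputable def tau (F : Type*) [Field F] : Om F := algebraMap F[X] (Om F) X

theorem alg_inj : Function.Injective (algebraMap F[X] (Om F)) := by
  rw [IsScalarTower.algebraMap_eq F[X] (RatFunc F) (Om F)]
  exact (algebraMap (RatFunc F) (Om F)).injective.comp (IsFractionRing.injective F[X] (RatFunc F))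

instance : FaithfulSMul F[X] (Om F) := (faithfulSMul_iff_algebraMap_injective _ _).mpr alg_inj

instance : Module.IsTorsionFree F[X] (Om F) := Module.isTorsionFree_iff_faithfulSMul.mpr inferInstance

theorem tau_ne : tau F ≠ 0 := by
  intro h
  have := alg_inj (h.trans (map_zero _).symm)
  exact X_ne_zero this

theorem exists_val : ∃ V : ValuationSubring (Om F), 1 < V.valuation (tau F) ∧
    ∀ c : F, V.valuation (algebraMap F[X] (Om F) (C c)) ≤ 1 := by
  classical
  let ψ : F[X] →+* Om F := eval₂RingHom ((algebraMap F[X] (Om F)).comp C) (tau F)⁻¹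
  have hψC : ∀ c, ψ (C c) = algebraMap F[X] (Om F) (C c) := by
    intro c
    simp [ψ]
  have hψX : ψ X = (tau F)⁻¹ := by simp [ψ]
  let A : Subring (Om F) := ψ.range
  let s : A := ⟨(tau F)⁻¹, ⟨X, hψX⟩⟩
  have hI : Ideal.span {s} ≠ ⊤ := by
    intro h
    rw [Ideal.eq_top_iff_one, Ideal.mem_span_singleton'] at h
    obtain ⟨⟨c, p, hp⟩, hc⟩ := h
    have h1 : c * (tau F)⁻¹ = 1 := congrArg Subtype.val hc
    have h2 : c = tau F := by
      field_simp [tau_ne] at h1
      exact h1
    -- `ψ p = τ`
    have h3 : ψ p * (tau F) ^ p.natDegree = (tau F) ^ (p.natDegree + 1) := by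
      rw [hp, h2, pow_succ]; ring
    have h4 : ψ p * (tau F) ^ p.natDegree = algebraMap F[X] (Om F) p.reverse := by
      let _ : Invertible (tau F) := invertibleOfNonzero tau_ne
      have h5 := eval₂_reflect_mul_pow ((algebraMap F[X] (Om F)).comp C) (tau F) p.natDegree
        p.reverse (reverse_natDegree_le p)
      rw [reverse, reflect_reflect, invOf_eq_inv] at h5
      have h6 : algebraMap F[X] (Om F) p.reverse =
          eval₂ ((algebraMap F[X] (Om F)).comp C) (tau F) p.reverse := by
        have : ∀ q : F[X], algebraMap F[X] (Om F) q =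
            eval₂ ((algebraMap F[X] (Om F)).comp C) (tau F) q := by
          intro q
          unfold tau
          rw [← hom_eval₂ q C (algebraMap F[X] (Om F)) X, eval₂_C_X]
        exact this _
      rw [h6]
      exact h5
    have h7 : p.reverse = X ^ (p.natDegree + 1) := by
      apply alg_inj
      rw [← h4, h3, map_pow]
      rfl
    have h8 := reverse_natDegree_le p
    rw [h7, natDegree_X_pow] at h8
    omega
  obtain ⟨V, hV1, hV2⟩ := Ideal.image_subset_nonunits_valuationSubring _ hI
  refine ⟨V, ?_, ?_⟩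
  · have h1 : (tau F)⁻¹ ∈ V.nonunits := hV2 ⟨s, Ideal.subset_span rfl, rfl⟩
    rw [ValuationSubring.mem_nonunits_iff, map_inv₀] at h1
    have h0 : 0 < V.valuation (tau F) := by
      rw [zero_lt_iff]
      exact (Valuation.ne_zero_iff _).mpr tau_ne
    by_contra hc
    push Not at hc
    exact absurd h1 (not_lt.mpr ((one_le_inv₀ h0).mpr hc))
  · intro c
    rw [V.valuation_le_one_iff]
    exact hV1 ⟨C c, hψC c⟩

theorem val_poly {V : ValuationSubring (Om F)} (h1 : 1 < V.valuation (tau F))
    (hc : ∀ c : F, V.valuation (algebraMap F[X] (Om F) (C c)) ≤ 1) {p : F[X]} (hp : p ≠ 0) :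
    V.valuation (algebraMap F[X] (Om F) p) = V.valuation (tau F) ^ p.natDegree := by
  have hpos : 0 < V.valuation (tau F) := lt_trans zero_lt_one h1
  have hmono : ∀ (c : F) (i : ℕ), algebraMap F[X] (Om F) (C c * X ^ i) =
      algebraMap F[X] (Om F) (C c) * tau F ^ i := by
    intro c i
    rw [map_mul, map_pow]
    rfl
  have hlead : V.valuation (algebraMap F[X] (Om F) (C p.leadingCoeff)) = 1 := by
    have hl : p.leadingCoeff ≠ 0 := leadingCoeff_ne_zero.mpr hp
    apply le_antisymm (hc _)
    have h2 := hc p.leadingCoeff⁻¹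
    have h3 : algebraMap F[X] (Om F) (C p.leadingCoeff⁻¹) =
        (algebraMap F[X] (Om F) (C p.leadingCoeff))⁻¹ := by
      apply eq_inv_of_mul_eq_one_left
      rw [← map_mul, ← C_mul, inv_mul_cancel₀ hl, C_1, map_one]
    rw [h3, map_inv₀] at h2
    have h0 : 0 < V.valuation (algebraMap F[X] (Om F) (C p.leadingCoeff)) := by
      rw [zero_lt_iff]
      apply (Valuation.ne_zero_iff _).mpr
      intro h
      have := alg_inj (h.trans (map_zero _).symm)
      exact hl (C_eq_zero.mp this)
    exact (inv_le_one₀ h0).mp h2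
  have hsum : p = (∑ i ∈ Finset.range p.natDegree, C (p.coeff i) * X ^ i) +
      C p.leadingCoeff * X ^ p.natDegree := by
    conv_lhs => rw [p.as_sum_range_C_mul_X_pow]
    rw [Finset.sum_range_succ]
    rfl
  rw [hsum, map_add, map_sum, hmono, Valuation.map_add_eq_of_lt_right]
  · rw [map_mul, map_pow, hlead, one_mul, ← hsum]
  · rw [map_mul, map_pow, hlead, one_mul]
    apply Valuation.map_sum_lt
    · exact (pow_pos hpos _).ne'
    · intro i hi
      rw [Finset.mem_range] at hi
      rw [hmono, map_mul, map_pow]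
      calc V.valuation (algebraMap F[X] (Om F) (C (p.coeff i))) * V.valuation (tau F) ^ i
          ≤ 1 * V.valuation (tau F) ^ i := by gcongr; exact hc _
        _ = V.valuation (tau F) ^ i := one_mul _
        _ < V.valuation (tau F) ^ p.natDegree := pow_lt_pow_right₀ h1 hi

/-- coefficients of a product of linear factors -/
theorem coeff_prod_le {L Γ : Type*} [Field L] [LinearOrderedCommGroupWithZero Γ] (v : Valuation L Γ)
    {ρ : Γ} (hρ : 1 ≤ ρ) (s : Multiset L) (hs : ∀ x ∈ s, v x ≤ ρ) (j : ℕ) :
    v ((s.map fun x => X - C x).prod.coeff j) ≤ ρ ^ s.card := by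
  induction s using Multiset.induction_on generalizing j with
  | empty =>
    rw [Multiset.map_zero, Multiset.prod_zero, Multiset.card_zero, pow_zero, coeff_one]
    split_ifs
    · rw [map_one]
    · rw [map_zero]; exact zero_le_one
  | cons x s ih =>
    have ih' := fun j => ih (fun y hy => hs y (Multiset.mem_cons_of_mem hy)) j
    have hx := hs x (Multiset.mem_cons_self x s)
    have hpow : (1 : Γ) ≤ ρ ^ s.card := one_le_pow₀ hρ
    rw [Multiset.map_cons, Multiset.prod_cons, Multiset.card_cons, sub_mul, coeff_sub]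
    refine (Valuation.map_sub v _ _).trans (max_le ?_ ?_)
    · rcases j with _ | j
      · rw [mul_coeff_zero, coeff_X_zero, zero_mul, map_zero]
        exact zero_le
      · rw [coeff_X_mul, pow_succ]
        calc _ ≤ ρ ^ s.card := ih' j
          _ = ρ ^ s.card * 1 := (mul_one _).symm
          _ ≤ ρ ^ s.card * ρ := by gcongr
    · rw [coeff_C_mul, map_mul, pow_succ, mul_comm]
      gcongr
      exact ih' j

theorem mem_of_root {D d : ℕ} {f : F[X][X]} (hf : f.Monic) (hd : f.natDegree = d) (h2 : 2 ≤ d)
    {x z : Om F} (hx : x ∈ Pre D f) (hz : aeval z (minpoly F[X] x) = 0) : z ∈ Pre D f := by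
  obtain ⟨⟨m, n, hmn, h⟩, hD⟩ := hx
  have hint := integral_of_iter hf hd h2 hmn h
  have hdvd : minpoly F[X] x ∣ (f.comp)^[m] X - (f.comp)^[n] X := by
    apply minpoly.isIntegrallyClosed_dvd hint
    rw [map_sub, ← iter_eq, ← iter_eq, h, sub_self]
  refine ⟨⟨m, n, hmn, ?_⟩, ?_⟩
  · rw [iter_eq, iter_eq, ← sub_eq_zero, ← map_sub]
    exact aeval_eq_zero_of_dvd_aeval_eq_zero hdvd hz
  · have h3 : minpoly (RatFunc F) x = minpoly (RatFunc F) z := by
      apply minpoly.eq_of_irreducible_of_monic (minpoly.irreducible hint.tower_top) ?_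
        (minpoly.monic hint.tower_top)
      rw [minpoly.isIntegrallyClosed_eq_field_fractions' (RatFunc F) hint, aeval_map_algebraMap]
      exact hz
    rw [← h3]
    exact hD

theorem natDegree_minpoly {x : Om F} (hint : IsIntegral F[X] x) :
    (minpoly F[X] x).natDegree = (minpoly (RatFunc F) x).natDegree := by
  rw [minpoly.isIntegrallyClosed_eq_field_fractions' (RatFunc F) hint,
    (minpoly.monic hint).natDegree_map]

theorem tdeg_minpoly_le {D d n : ℕ} {f : F[X][X]} (hf : f ∈ Mon F d n) (h2 : 2 ≤ d)
    {x : Om F} (hx : x ∈ Pre D f) : tdeg (minpoly F[X] x) ≤ n * D := by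
  classical
  obtain ⟨V, hV1, hVc⟩ := exists_val (F := F)
  have hint : IsIntegral F[X] x := by
    obtain ⟨⟨m, k, hmk, h⟩, -⟩ := hx
    exact integral_of_iter hf.1 hf.2.1 h2 hmk h
  set ρ := V.valuation (tau F) ^ n with hρ
  have hρ1 : 1 ≤ ρ := one_le_pow₀ hV1.le
  have hroot : ∀ z, aeval z (minpoly F[X] x) = 0 → V.valuation z ≤ ρ := by
    intro z hz
    obtain ⟨⟨m, k, hmk, h⟩, -⟩ := mem_of_root hf.1 hf.2.1 h2 hx hz
    refine orbit_le V.valuation hρ1 h2 (fun j => algebraMap F[X] (Om F) (f.coeff j)) ?_ (act f)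
      (act_eq hf.1 hf.2.1) hmk h
    intro j
    by_cases h0 : f.coeff j = 0
    · simp only [h0, map_zero]
      exact zero_le
    · rw [val_poly hV1 hVc h0]
      apply pow_le_pow_right₀ hV1.le
      have := (natDegree_lt_iff_degree_lt h0).mpr (hf.2.2 j)
      omega
  have hmon := (minpoly.monic hint).map (algebraMap F[X] (Om F))
  have hsplit := IsAlgClosed.splits ((minpoly F[X] x).map (algebraMap F[X] (Om F)))
  have hprod := hsplit.eq_prod_roots_of_monic hmon
  have hcard : ((minpoly F[X] x).map (algebraMap F[X] (Om F))).roots.card =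
      (minpoly F[X] x).natDegree := by
    rw [← hsplit.natDegree_eq_card_roots, (minpoly.monic hint).natDegree_map]
  rw [tdeg_le_iff]
  intro j
  by_cases h0 : (minpoly F[X] x).coeff j = 0
  · rw [h0]; simp
  have h3 := coeff_prod_le V.valuation hρ1
    ((minpoly F[X] x).map (algebraMap F[X] (Om F))).roots (by
      intro z hz
      apply hroot
      have := (mem_roots'.mp hz).2
      rwa [IsRoot.def, eval_map_algebraMap] at this) j
  rw [← hprod, coeff_map, hcard, val_poly hV1 hVc h0, hρ, ← pow_mul,
    pow_le_pow_iff_right₀ hV1] at h3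
  refine h3.trans ?_
  apply Nat.mul_le_mul_left
  rw [natDegree_minpoly hint]
  exact hx.2

theorem act_mem {D d : ℕ} {f : F[X][X]} (hf : f.Monic) (hd : f.natDegree = d) (h2 : 2 ≤ d)
    {x : Om F} (hx : x ∈ Pre D f) : act f x ∈ Pre D f := by
  obtain ⟨⟨m, n, hmn, h⟩, hD⟩ := hx
  have hint := integral_of_iter hf hd h2 hmn h
  refine ⟨⟨m, n, hmn, ?_⟩, ?_⟩
  · rw [← Function.iterate_succ_apply, ← Function.iterate_succ_apply,
      Function.iterate_succ_apply', Function.iterate_succ_apply', h]
  · refine le_trans ?_ hD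
    have hx' : IsIntegral (RatFunc F) x := hint.tower_top
    have hmem : act f x ∈ IntermediateField.adjoin (RatFunc F) {x} := by
      have h1 : x ∈ IntermediateField.adjoin (RatFunc F) {x} :=
        IntermediateField.mem_adjoin_simple_self _ x
      rw [act_eq hf hd]
      apply add_mem (pow_mem h1 _)
      apply sum_mem
      intro j _
      apply mul_mem _ (pow_mem h1 _)
      rw [IsScalarTower.algebraMap_apply F[X] (RatFunc F) (Om F)]
      exact IntermediateField.algebraMap_mem _ _
    have hle : IntermediateField.adjoin (RatFunc F) {act f x} ≤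
        IntermediateField.adjoin (RatFunc F) {x} :=
      IntermediateField.adjoin_simple_le_iff.mpr hmem
    have hy' : IsIntegral (RatFunc F) (act f x) := Algebra.IsIntegral.isIntegral _
    rw [← IntermediateField.adjoin.finrank hy', ← IntermediateField.adjoin.finrank hx']
    have : FiniteDimensional (RatFunc F) (IntermediateField.adjoin (RatFunc F) {x}) :=
      IntermediateField.adjoin.finiteDimensional hx'
    exact IntermediateField.finrank_le_of_le_right hle

end Pool.Agent.R414.FF
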