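import Pool.Agent.R414.FF.B

/-!
# Counting the polynomials with many preperiodic points
-/

set_option autoImplicit false

open Polynomial

namespace Pool.Agent.R414.FF

variable {F : Type*} [Field F]

/-- the integral points of degree at most `D` and height at most `h` -/
def Pts (F : Type*) [Field F] (D h : ℕ) : Set (Om F) :=
  {x | IsIntegral F[X] x ∧ (minpoly F[X] x).natDegree ≤ D ∧ tdeg (minpoly F[X] x) ≤ h}

theorem Pts_card [Fintype F] (D h : ℕ) : (Pts F D h).Finite ∧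
    (Pts F D h).ncard ≤ Fintype.card F ^ ((D + 1) * (h + 1)) * D := by
  classical
  obtain ⟨hfin, hc⟩ := U_card (F := F) (D + 1) (h + 1)
  let T : Finset F[X][X] := hfin.toFinset.filter fun m => m ≠ 0 ∧ m.natDegree ≤ D
  let B : Finset (Om F) := T.biUnion fun m => (m.aroots (Om F)).toFinset
  have hsub : Pts F D h ⊆ ↑B := by
    rintro x ⟨hint, hD, hh⟩
    have hm := minpoly.monic hint
    simp only [B, Finset.coe_biUnion, Set.mem_iUnion]
    refine ⟨minpoly F[X] x, ?_, ?_⟩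
    · simp only [T, Finset.coe_filter, Set.Finite.mem_toFinset]
      refine ⟨⟨?_, ?_⟩, hm.ne_zero, hD⟩
      · rw [← natDegree_lt_iff_degree_lt hm.ne_zero]
        omega
      · intro j
        refine lt_of_le_of_lt degree_le_natDegree ?_
        have := tdeg_le_iff.mp hh j
        have h2 : ((minpoly F[X] x).coeff j).natDegree < h + 1 := by omega
        exact_mod_cast h2
    · rw [Finset.mem_coe, Multiset.mem_toFinset, mem_aroots]
      exact ⟨hm.ne_zero, minpoly.aeval _ _⟩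
  have hB : B.card ≤ T.card * D := by
    apply Finset.card_biUnion_le_card_mul
    intro m hm
    have h1 := (Finset.mem_filter.mp hm).2.2
    refine (Multiset.toFinset_card_le _).trans ((card_roots' _).trans ?_)
    exact natDegree_map_le.trans h1
  have hT : T.card ≤ Fintype.card F ^ ((D + 1) * (h + 1)) := by
    rw [← hc, Set.ncard_eq_toFinset_card _ hfin]
    exact Finset.card_filter_le _ _
  refine ⟨B.finite_toSet.subset hsub, ?_⟩
  refine (Set.ncard_le_ncard hsub B.finite_toSet).trans ?_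
  rw [Set.ncard_coe_finset]
  exact hB.trans (Nat.mul_le_mul_right _ hT)

theorem prod_dvd {s : Finset F[X][X]} {g : F[X][X]} (h : ∀ m ∈ s, m.Monic ∧ Prime m ∧ m ∣ g) :
    ∏ m ∈ s, m ∣ g := by
  classical
  induction s using Finset.induction_on with
  | empty => simp
  | insert p s hp ih =>
    obtain ⟨w, hw⟩ := ih fun m hm => h m (Finset.mem_insert_of_mem hm)
    obtain ⟨h1, h2, h3⟩ := h p (Finset.mem_insert_self p s)
    rw [Finset.prod_insert hp, mul_comm, hw]
    apply mul_dvd_mul_left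
    rw [hw] at h3
    rcases h2.dvd_or_dvd h3 with h4 | h4
    · exfalso
      obtain ⟨m, hm, hpm⟩ := (Prime.dvd_finsetProd_iff h2 _).mp h4
      obtain ⟨h5, h6, -⟩ := h m (Finset.mem_insert_of_mem hm)
      have h7 := h2.associated_of_dvd h6 hpm
      have h8 := eq_of_monic_of_associated h1 h5 h7
      exact hp (h8 ▸ hm)
    · exact h4

open Classical in
/-- the product of the different minimal polynomials of the points of `Z` -/
noncomputable def MZ (Z : Finset (Om F)) : F[X][X] := ∏ m ∈ Z.image (minpoly F[X]), m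

theorem MZ_monic {Z : Finset (Om F)} (hZ : ∀ z ∈ Z, IsIntegral F[X] z) : (MZ Z).Monic := by
  classical
  apply monic_prod_of_monic
  intro m hm
  obtain ⟨z, hz, rfl⟩ := Finset.mem_image.mp hm
  exact minpoly.monic (hZ z hz)

theorem MZ_dvd {Z : Finset (Om F)} (hZ : ∀ z ∈ Z, IsIntegral F[X] z) {g : F[X][X]}
    (hg : ∀ z ∈ Z, aeval z g = 0) : MZ Z ∣ g := by
  classical
  apply prod_dvd
  intro m hm
  obtain ⟨z, hz, rfl⟩ := Finset.mem_image.mp hm
  exact ⟨minpoly.monic (hZ z hz), minpoly.prime_of_isIntegrallyClosed (hZ z hz),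
    minpoly.isIntegrallyClosed_dvd (hZ z hz) (hg z hz)⟩

theorem dvd_MZ {Z : Finset (Om F)} {z : Om F} (hz : z ∈ Z) : minpoly F[X] z ∣ MZ Z := by
  classical
  exact Finset.dvd_prod_of_mem _ (Finset.mem_image_of_mem _ hz)

theorem MZ_root {Z : Finset (Om F)} {z : Om F} (hz : z ∈ Z) : aeval z (MZ Z) = 0 :=
  aeval_eq_zero_of_dvd_aeval_eq_zero (dvd_MZ hz) (minpoly.aeval _ _)

theorem card_le_MZ {Z : Finset (Om F)} (hZ : ∀ z ∈ Z, IsIntegral F[X] z) :
    Z.card ≤ (MZ Z).natDegree := by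
  classical
  have h0 := (MZ_monic hZ).ne_zero
  have hsub : Z ⊆ ((MZ Z).aroots (Om F)).toFinset := by
    intro z hz
    rw [Multiset.mem_toFinset, mem_aroots]
    exact ⟨h0, MZ_root hz⟩
  refine (Finset.card_le_card hsub).trans ((Multiset.toFinset_card_le _).trans
    ((card_roots' _).trans ?_))
  exact natDegree_map_le

theorem MZ_natDegree_le {Z : Finset (Om F)} {D : ℕ}
    (hZ : ∀ z ∈ Z, IsIntegral F[X] z ∧ (minpoly F[X] z).natDegree ≤ D) :
    (MZ Z).natDegree ≤ Z.card * D := by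
  classical
  unfold MZ
  refine (natDegree_prod_le _ _).trans ?_
  refine (Finset.sum_le_card_nsmul _ _ D ?_).trans ?_
  · intro m hm
    obtain ⟨z, hz, rfl⟩ := Finset.mem_image.mp hm
    exact (hZ z hz).2
  · rw [smul_eq_mul]
    exact Nat.mul_le_mul_right _ Finset.card_image_le

theorem MZ_mono {Z W : Finset (Om F)} (h : Z ⊆ W) (hW : ∀ z ∈ W, IsIntegral F[X] z) :
    (MZ Z).natDegree ≤ (MZ W).natDegree := by
  classical
  apply natDegree_le_of_dvd _ (MZ_monic hW).ne_zero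
  exact Finset.prod_dvd_prod_of_subset _ _ _ (Finset.image_subset_image h)

/-- the polynomials with `k` preperiodic points of total degree at least `e` -/
def Many (F : Type*) [Field F] (D k e d n : ℕ) : Set F[X][X] :=
  {f | f ∈ Mon F d n ∧ ∃ Z : Finset (Om F), (↑Z ⊆ Pre D f) ∧ Z.card = k ∧ e ≤ (MZ Z).natDegree}

theorem pre_pts {D d n : ℕ} {f : F[X][X]} (hf : f ∈ Mon F d n) (h2 : 2 ≤ d) {x : Om F}
    (hx : x ∈ Pre D f) {h : ℕ} (hh : tdeg (minpoly F[X] x) ≤ h) : x ∈ Pts F D h := by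
  have hint : IsIntegral F[X] x := by
    obtain ⟨⟨m, k, hmk, h⟩, -⟩ := hx
    exact integral_of_iter hf.1 hf.2.1 h2 hmk h
  exact ⟨hint, (natDegree_minpoly hint).trans_le hx.2, hh⟩

open Classical in
theorem many_cover {D k e d n : ℕ} (hk : 1 ≤ k) (h2 : 2 ≤ d) {f : F[X][X]}
    (hf : f ∈ Many F D k e d n) : ∃ h ≤ n * D, ∃ x y : Fin (k + 1) → Om F,
      (∀ i, x i ∈ Pts F D h) ∧ (∀ i, y i ∈ Pts F D h) ∧ (∀ i, act f (x i) = y i) ∧
      e ≤ (MZ (Finset.univ.image x)).natDegree ∧ h ≤ tdeg (MZ (Finset.univ.image x)) := by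
  obtain ⟨hf, Z, hZ, hZk, hZe⟩ := hf
  let S : Set ℕ := (fun x => tdeg (minpoly F[X] x)) '' (Pre D f)
  have hSb : BddAbove S := by
    refine ⟨n * D, ?_⟩
    rintro _ ⟨x, hx, rfl⟩
    exact tdeg_minpoly_le hf h2 hx
  have hne : Z.Nonempty := by
    rw [← Finset.card_pos]
    omega
  obtain ⟨z₀, hz₀⟩ := hne
  have hSne : S.Nonempty := ⟨_, z₀, hZ hz₀, rfl⟩
  obtain ⟨z, hz, hzh⟩ := Nat.sSup_mem hSne hSb
  set h := sSup S with hh
  have hle : ∀ x ∈ Pre D f, tdeg (minpoly F[X] x) ≤ h := fun x hx => le_csSup hSb ⟨x, hx, rfl⟩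
  have hhn : h ≤ n * D := by
    rw [← hzh]
    exact tdeg_minpoly_le hf h2 hz
  let g := Z.equivFinOfCardEq hZk
  let x : Fin (k + 1) → Om F := Fin.cons z fun i => (g.symm i : Om F)
  have hx : ∀ i, x i ∈ Pre D f := by
    intro i
    refine Fin.cases ?_ (fun i => ?_) i
    · exact hz
    · simp only [x, Fin.cons_succ]
      exact hZ (g.symm i).2
  have hxi : ∀ w ∈ Finset.univ.image x, IsIntegral F[X] w := by
    intro w hw
    obtain ⟨i, -, rfl⟩ := Finset.mem_image.mp hw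
    exact (pre_pts hf h2 (hx i) (hle _ (hx i))).1
  refine ⟨h, hhn, x, fun i => act f (x i), fun i => pre_pts hf h2 (hx i) (hle _ (hx i)),
    fun i => ?_, fun i => rfl, ?_, ?_⟩
  · have := act_mem hf.1 hf.2.1 h2 (hx i)
    exact pre_pts hf h2 this (hle _ this)
  · refine hZe.trans (MZ_mono ?_ hxi)
    intro w hw
    rw [Finset.mem_image]
    refine ⟨Fin.succ (g ⟨w, hw⟩), Finset.mem_univ _, ?_⟩
    simp only [x, Fin.cons_succ, Equiv.symm_apply_apply]
  · rw [← hzh]
    apply tdeg_le_of_dvd _ (MZ_monic hxi).ne_zero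
    apply dvd_MZ
    rw [Finset.mem_image]
    exact ⟨0, Finset.mem_univ _, rfl⟩

theorem arith {κ a n h D : ℕ} (ha : (κ + 1) * (D + 1) ≤ a) (hh : h ≤ n * D) :
    κ * h + a * (n - h) + h ≤ a * n := by
  rcases Nat.le_total h n with h1 | h1
  · obtain ⟨m, rfl⟩ := Nat.exists_eq_add_of_le h1
    have h2 : κ + 1 ≤ a := by nlinarith
    rw [Nat.add_sub_cancel_left]
    nlinarith [Nat.mul_le_mul_right h h2]
  · rw [Nat.sub_eq_zero_of_le h1, mul_zero, add_zero]
    calc κ * h + h = (κ + 1) * h := by ring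
      _ ≤ (κ + 1) * (n * D) := Nat.mul_le_mul_left _ hh
      _ ≤ (κ + 1) * (D + 1) * n := by nlinarith
      _ ≤ a * n := Nat.mul_le_mul_right _ ha

open Classical in
theorem many_card [Fintype F] (D k e : ℕ) (hk : 1 ≤ k) : ∃ d₀ : ℕ, ∀ d, d₀ ≤ d → ∃ C : ℝ, 0 ≤ C ∧
    ∀ n, (Many F D k e d n).Finite ∧
      ((Many F D k e d n).ncard : ℝ) ≤ C * (Fintype.card F : ℝ) ^ ((d - e) * n) := by
  set q := Fintype.card F with hq
  have hq2 : 2 ≤ q := Fintype.one_lt_card
  have hq0 : (0 : ℝ) < q := by exact_mod_cast (by omega : 0 < q)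
  set κ := (D + 1) * (2 * (k + 1)) with hκ
  refine ⟨e + (κ + 1) * (D + 1) + 2, fun d hd => ?_⟩
  have hd2 : 2 ≤ d := by omega
  have hade : (κ + 1) * (D + 1) ≤ d - e := by omega
  let P : ℕ → Finset (Om F) := fun h => (Pts_card (F := F) D h).1.toFinset
  have hPc : ∀ h, (P h).card ≤ q ^ ((D + 1) * (h + 1)) * D := by
    intro h
    have := (Pts_card (F := F) D h).2
    rwa [Set.ncard_eq_toFinset_card _ (Pts_card (F := F) D h).1] at this
  let I : ℕ → Finset ((Fin (k + 1) → Om F) × (Fin (k + 1) → Om F)) := fun h =>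
    (Fintype.piFinset fun _ => P h) ×ˢ (Fintype.piFinset fun _ => P h)
  have hI : ∀ h, (I h).card ≤ (q ^ ((D + 1) * (h + 1)) * D) ^ (2 * (k + 1)) := by
    intro h
    simp only [I]
    rw [Finset.card_product, Fintype.card_piFinset, Finset.prod_const, Finset.card_univ,
      Fintype.card_fin, ← pow_add, ← two_mul]
    exact Nat.pow_le_pow_left (hPc h) _
  refine ⟨2 * (D : ℝ) ^ (2 * (k + 1)) * (q : ℝ) ^ κ, by positivity, fun n => ?_⟩
  let cell : ℕ → ((Fin (k + 1) → Om F) × (Fin (k + 1) → Om F)) → Set F[X][X] := fun h p =>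
    {f | f ∈ Mon F d n ∧ (∀ i, act f (p.1 i) = p.2 i) ∧ (∀ i, p.1 i ∈ Pts F D h) ∧
      e ≤ (MZ (Finset.univ.image p.1)).natDegree ∧ h ≤ tdeg (MZ (Finset.univ.image p.1))}
  have hcell : ∀ h p, (cell h p).Finite ∧ (cell h p).ncard ≤ q ^ ((d - e) * (n - h)) := by
    intro h p
    rcases (cell h p).eq_empty_or_nonempty with h0 | ⟨f₀, hf₀⟩
    · rw [h0]; simp
    · obtain ⟨-, -, h3, h4, h5⟩ := hf₀
      have hint : ∀ z ∈ Finset.univ.image p.1, IsIntegral F[X] z := by
        intro z hz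
        obtain ⟨i, -, rfl⟩ := Finset.mem_image.mp hz
        exact (h3 i).1
      have h6 := fiber (F := F) (MZ_monic hint) (d := d) (n := n) (S := cell h p)
        (fun f hf => hf.1) (by
          intro f hf g hg
          apply MZ_dvd hint
          intro z hz
          obtain ⟨i, -, rfl⟩ := Finset.mem_image.mp hz
          have e1 := hf.2.1 i
          have e2 := hg.2.1 i
          unfold act at e1 e2
          rw [map_sub, e1, e2, sub_self])
      refine ⟨h6.1, h6.2.trans ?_⟩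
      apply Nat.pow_le_pow_right (by omega)
      apply Nat.mul_le_mul <;> omega
  have hcov : Many F D k e d n ⊆
      ⋃ h ∈ Finset.range (n * D + 1), ⋃ p ∈ I h, cell h p := by
    intro f hf
    obtain ⟨h, hh, x, y, h1, h2, h3, h4, h5⟩ := many_cover hk hd2 hf
    simp only [Set.mem_iUnion]
    refine ⟨h, Finset.mem_range.mpr (by omega), (x, y), ?_, hf.1, h3, h1, h4, h5⟩
    simp only [I, P, Finset.mem_product, Fintype.mem_piFinset, Set.Finite.mem_toFinset]
    exact ⟨h1, h2⟩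
  have hfin : (⋃ h ∈ Finset.range (n * D + 1), ⋃ p ∈ I h, cell h p).Finite := by
    apply Set.Finite.biUnion (Finset.finite_toSet _)
    intro h _
    apply Set.Finite.biUnion (Finset.finite_toSet _)
    intro p _
    exact (hcell h p).1
  refine ⟨hfin.subset hcov, ?_⟩
  have h1 : (Many F D k e d n).ncard ≤ ∑ h ∈ Finset.range (n * D + 1),
      (I h).card * q ^ ((d - e) * (n - h)) := by
    refine (Set.ncard_le_ncard hcov hfin).trans ?_
    refine (Finset.set_ncard_biUnion_le _ _).trans (Finset.sum_le_sum fun h _ => ?_)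
    refine (Finset.set_ncard_biUnion_le _ _).trans ?_
    rw [← smul_eq_mul]
    exact Finset.sum_le_card_nsmul _ _ _ fun p _ => (hcell h p).2
  have h2 : ((Many F D k e d n).ncard : ℝ) ≤ ∑ h ∈ Finset.range (n * D + 1),
      ((I h).card : ℝ) * (q : ℝ) ^ ((d - e) * (n - h)) := by exact_mod_cast h1
  refine h2.trans ?_
  have h3 : ∀ h ∈ Finset.range (n * D + 1), ((I h).card : ℝ) * (q : ℝ) ^ ((d - e) * (n - h)) ≤
      (D : ℝ) ^ (2 * (k + 1)) * (q : ℝ) ^ κ * (q : ℝ) ^ ((d - e) * n) * (1 / 2) ^ h := by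
    intro h hh
    rw [Finset.mem_range] at hh
    have h4 : ((I h).card : ℝ) ≤ (D : ℝ) ^ (2 * (k + 1)) * (q : ℝ) ^ κ * (q : ℝ) ^ (κ * h) := by
      have h5 : ((I h).card : ℝ) ≤ ((q : ℝ) ^ ((D + 1) * (h + 1)) * D) ^ (2 * (k + 1)) := by
        exact_mod_cast hI h
      refine h5.trans (le_of_eq ?_)
      rw [mul_pow, ← pow_mul, mul_comm, mul_assoc ((D : ℝ) ^ (2 * (k + 1))), ← pow_add]
      congr 2
      rw [hκ]
      ring
    have h6 := arith (κ := κ) (n := n) (h := h) hade (by omega)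
    have h7 : (q : ℝ) ^ (κ * h) * (q : ℝ) ^ ((d - e) * (n - h)) * (2 : ℝ) ^ h ≤
        (q : ℝ) ^ ((d - e) * n) := by
      have hq2' : (2 : ℝ) ≤ q := by exact_mod_cast hq2
      calc (q : ℝ) ^ (κ * h) * (q : ℝ) ^ ((d - e) * (n - h)) * (2 : ℝ) ^ h
          ≤ (q : ℝ) ^ (κ * h) * (q : ℝ) ^ ((d - e) * (n - h)) * (q : ℝ) ^ h := by gcongr
        _ = (q : ℝ) ^ (κ * h + (d - e) * (n - h) + h) := by rw [pow_add, pow_add]
        _ ≤ (q : ℝ) ^ ((d - e) * n) := pow_le_pow_right₀ (by linarith) h6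
    have h8 : (q : ℝ) ^ (κ * h) * (q : ℝ) ^ ((d - e) * (n - h)) ≤
        (q : ℝ) ^ ((d - e) * n) * (1 / 2) ^ h := by
      rw [one_div, inv_pow, ← div_eq_mul_inv, le_div_iff₀ (by positivity)]
      exact h7
    calc ((I h).card : ℝ) * (q : ℝ) ^ ((d - e) * (n - h))
        ≤ (D : ℝ) ^ (2 * (k + 1)) * (q : ℝ) ^ κ * (q : ℝ) ^ (κ * h) *
          (q : ℝ) ^ ((d - e) * (n - h)) := by gcongr
      _ = (D : ℝ) ^ (2 * (k + 1)) * (q : ℝ) ^ κ *
          ((q : ℝ) ^ (κ * h) * (q : ℝ) ^ ((d - e) * (n - h))) := by ring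
      _ ≤ (D : ℝ) ^ (2 * (k + 1)) * (q : ℝ) ^ κ * ((q : ℝ) ^ ((d - e) * n) * (1 / 2) ^ h) := by
        gcongr
      _ = _ := by ring
  refine (Finset.sum_le_sum h3).trans ?_
  rw [← Finset.mul_sum]
  have h9 := sum_geometric_two_le (n * D + 1)
  have h10 : (0 : ℝ) ≤ (D : ℝ) ^ (2 * (k + 1)) * (q : ℝ) ^ κ * (q : ℝ) ^ ((d - e) * n) := by
    positivity
  calc _ ≤ (D : ℝ) ^ (2 * (k + 1)) * (q : ℝ) ^ κ * (q : ℝ) ^ ((d - e) * n) * 2 := by
        gcongr
    _ = _ := by ring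

end Pool.Agent.R414.FF
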