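import Pool.Agent.R414.FF.C

/-!
# Portraits of preperiodic points over `F(t)`
-/

set_option autoImplicit false

open Polynomial Filter Topology

namespace Pool.Agent.R414.FF

variable {F : Type*} [Field F]

/-- the roots of `M` in the algebraic closure -/
def Rt (M : F[X][X]) : Set (Om F) := {x | aeval x M = 0}

/-- the admissible portraits -/
def Adm (F : Type*) [Field F] (D k : ℕ) : Set (F[X][X] × F[X][X]) :=
  {p | p.1.Monic ∧ p.1.natDegree = k ∧ p.2.degree < k ∧ (Rt p.1).ncard = k ∧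
    (∀ x ∈ Rt p.1, (minpoly (RatFunc F) x).natDegree ≤ D) ∧ ∀ x ∈ Rt p.1, aeval x p.2 ∈ Rt p.1}

/-- the polynomials with portrait `p` -/
def Por (D d n : ℕ) (p : F[X][X] × F[X][X]) : Set F[X][X] :=
  {f | f ∈ Mon F d n ∧ Pre D f = Rt p.1 ∧ p.1 ∣ f - p.2}

/-- the polynomials with at least `k` preperiodic points of degree at most `D` -/
def Least (F : Type*) [Field F] (D k d n : ℕ) : Set F[X][X] :=
  {f | f ∈ Mon F d n ∧ k ≤ (Pre D f).ncard}

theorem rt_finite {M : F[X][X]} (hM : M ≠ 0) : (Rt M).Finite := by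
  classical
  refine (((M.aroots (Om F)).toFinset).finite_toSet).subset ?_
  intro x hx
  rw [Finset.mem_coe, Multiset.mem_toFinset, mem_aroots]
  exact ⟨hM, hx⟩

theorem rt_integral {M : F[X][X]} (hM : M.Monic) {x : Om F} (hx : x ∈ Rt M) :
    IsIntegral F[X] x := ⟨M, hM, hx⟩

theorem pre_finite [Fintype F] {D d n : ℕ} {f : F[X][X]} (hf : f ∈ Mon F d n) (h2 : 2 ≤ d) :
    (Pre D f).Finite :=
  (Pts_card (F := F) D (n * D)).1.subset fun _ hx => pre_pts hf h2 hx (tdeg_minpoly_le hf h2 hx)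

theorem pre_integral {D d n : ℕ} {f : F[X][X]} (hf : f ∈ Mon F d n) (h2 : 2 ≤ d) {x : Om F}
    (hx : x ∈ Pre D f) : IsIntegral F[X] x :=
  (pre_pts hf h2 hx le_rfl).1

theorem act_of_dvd {f M r : F[X][X]} (h : M ∣ f - r) {x : Om F} (hx : x ∈ Rt M) :
    act f x = aeval x r := by
  have h1 := aeval_eq_zero_of_dvd_aeval_eq_zero h hx
  rw [map_sub, sub_eq_zero] at h1
  exact h1

theorem rt_sub {D k d n : ℕ} {p : F[X][X] × F[X][X]} (hp : p ∈ Adm F D k) {f : F[X][X]}
    (hf : f ∈ Cls F d n p.1 p.2) : Rt p.1 ⊆ Pre D f := by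
  obtain ⟨h1, h2, h3, h4, h5, h6⟩ := hp
  intro x hx
  refine ⟨?_, h5 x hx⟩
  have hstep : ∀ y ∈ Rt p.1, act f y ∈ Rt p.1 := by
    intro y hy
    rw [act_of_dvd hf.2 hy]
    exact h6 y hy
  have hit : ∀ m : ℕ, (act f)^[m] x ∈ Rt p.1 := by
    intro m
    induction m with
    | zero => exact hx
    | succ m ih => rw [Function.iterate_succ_apply']; exact hstep _ ih
  obtain ⟨m, n', hmn, h⟩ := (rt_finite h1.ne_zero).exists_lt_map_eq_of_forall_mem
    (f := fun m : ℕ => (act f)^[m] x) hit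
  exact ⟨m, n', hmn, h⟩

theorem many_of_finset {D k d n : ℕ} {f : F[X][X]} (hf : f ∈ Mon F d n) (h2 : 2 ≤ d)
    {Z : Finset (Om F)} (hZ : ↑Z ⊆ Pre D f) (hk : Z.card = k) : f ∈ Many F D k k d n := by
  refine ⟨hf, Z, hZ, hk, ?_⟩
  rw [← hk]
  exact card_le_MZ fun z hz => pre_integral hf h2 (hZ hz)

theorem many_of_card [Fintype F] {D k d n : ℕ} {f : F[X][X]} (hf : f ∈ Mon F d n) (h2 : 2 ≤ d)
    (hk : k ≤ (Pre D f).ncard) : f ∈ Many F D k k d n := by
  classical
  have hfin := pre_finite (D := D) hf h2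
  rw [Set.ncard_eq_toFinset_card _ hfin] at hk
  obtain ⟨Z, hZ, hZk⟩ := Finset.exists_subset_card_eq hk
  refine many_of_finset hf h2 (Z := Z) ?_ hZk
  intro z hz
  exact hfin.mem_toFinset.mp (hZ hz)

theorem cls_sub [Fintype F] {D k d n : ℕ} (hd : 2 ≤ d) {p : F[X][X] × F[X][X]}
    (hp : p ∈ Adm F D k) : Cls F d n p.1 p.2 ⊆ Por D d n p ∪ Many F D (k + 1) (k + 1) d n := by
  intro f hf
  have h1 := rt_sub hp hf
  by_cases h2 : Pre D f = Rt p.1
  · exact Or.inl ⟨hf.1, h2, hf.2⟩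
  · right
    apply many_of_card hf.1 hd
    have h3 : Rt p.1 ⊂ Pre D f := ⟨h1, fun h => h2 (subset_antisymm h h1)⟩
    have h4 := Set.ncard_lt_ncard h3 (pre_finite hf.1 hd)
    rw [hp.2.2.2.1] at h4
    omega

theorem por_sub_cls {D d n : ℕ} (p : F[X][X] × F[X][X]) :
    Por D d n p ⊆ Cls F d n p.1 p.2 := fun _ hf => ⟨hf.1, hf.2.2⟩

theorem por_sub_least {D k d n : ℕ} {p : F[X][X] × F[X][X]} (hp : p ∈ Adm F D k) :
    Por D d n p ⊆ Least F D k d n := by
  intro f hf
  refine ⟨hf.1, ?_⟩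
  rw [hf.2.1, hp.2.2.2.1]

theorem adm_ext {D k : ℕ} (hk : 1 ≤ k) {p p' : F[X][X] × F[X][X]} (hp : p ∈ Adm F D k)
    (hp' : p' ∈ Adm F D k) (h : Rt p.1 = Rt p'.1) (h' : ∀ x ∈ Rt p.1, aeval x p.2 = aeval x p'.2) :
    p = p' := by
  classical
  have hfin := rt_finite hp.1.ne_zero
  have hcard : hfin.toFinset.card = k := by
    rw [← Set.ncard_eq_toFinset_card _ hfin]
    exact hp.2.2.2.1
  have hinj := map_injective _ (alg_inj (F := F))
  have key : ∀ a b : F[X][X], (a - b).degree < k → (∀ x ∈ Rt p.1, aeval x a = aeval x b) →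
      a = b := by
    intro a b hab hx
    apply hinj
    apply eq_of_degree_sub_lt_of_eval_finset_eq hfin.toFinset
    · rw [hcard, ← Polynomial.map_sub]
      exact lt_of_le_of_lt degree_map_le hab
    · intro x hx'
      rw [eval_map_algebraMap, eval_map_algebraMap]
      exact hx x (hfin.mem_toFinset.mp hx')
  apply Prod.ext
  · apply key
    · have e1 : p.1.degree = k := by rw [degree_eq_natDegree hp.1.ne_zero, hp.2.1]
      have e2 : p'.1.degree = k := by rw [degree_eq_natDegree hp'.1.ne_zero, hp'.2.1]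
      rw [← e1]
      exact degree_sub_lt_left (e1.trans e2.symm) hp.1.ne_zero
        (by rw [hp.1.leadingCoeff, hp'.1.leadingCoeff])
    · intro x hx
      have e1 : aeval x p.1 = 0 := hx
      have e2 : aeval x p'.1 = 0 := by
        rw [h] at hx
        exact hx
      rw [e1, e2]
  · apply key
    · exact lt_of_le_of_lt (degree_sub_le _ _) (max_lt hp.2.2.1 hp'.2.2.1)
    · exact h'

theorem por_disj {D k d n : ℕ} (hk : 1 ≤ k) {p p' : F[X][X] × F[X][X]} (hp : p ∈ Adm F D k)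
    (hp' : p' ∈ Adm F D k) {f : F[X][X]} (hf : f ∈ Por D d n p) (hf' : f ∈ Por D d n p') :
    p = p' := by
  have h1 : Rt p.1 = Rt p'.1 := hf.2.1.symm.trans hf'.2.1
  apply adm_ext hk hp hp' h1
  intro x hx
  rw [← act_of_dvd hf.2.2 hx, ← act_of_dvd hf'.2.2 (h1 ▸ hx)]

theorem least_sub [Fintype F] {D k d n : ℕ} (hk : 1 ≤ k) (hd : 2 ≤ d) :
    Least F D k d n ⊆ (⋃ p : Adm F D k, Por D d n p.1) ∪
      (Many F D (k + 1) (k + 1) d n ∪ Many F D k (k + 1) d n) := by
  classical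
  rintro f ⟨hf, hfk⟩
  by_cases h1 : k + 1 ≤ (Pre D f).ncard
  · exact Or.inr (Or.inl (many_of_card hf hd h1))
  have h2 : (Pre D f).ncard = k := by omega
  have hfin := pre_finite (D := D) hf hd
  set Z := hfin.toFinset with hZ
  have hZc : Z.card = k := by rw [← h2, Set.ncard_eq_toFinset_card _ hfin]
  have hZm : ∀ z, z ∈ Z ↔ z ∈ Pre D f := fun z => hfin.mem_toFinset
  have hint : ∀ z ∈ Z, IsIntegral F[X] z := fun z hz => pre_integral hf hd ((hZm z).mp hz)
  by_cases h3 : k + 1 ≤ (MZ Z).natDegree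
  · exact Or.inr (Or.inr ⟨hf, Z, fun z hz => (hZm z).mp hz, hZc, h3⟩)
  left
  have hmon := MZ_monic hint
  have h4 : (MZ Z).natDegree = k := by
    have := card_le_MZ hint
    omega
  have hRt : Rt (MZ Z) = Pre D f := by
    ext x
    constructor
    · intro hx
      have hx' : aeval x (MZ Z) = 0 := hx
      unfold MZ at hx'
      rw [map_prod, Finset.prod_eq_zero_iff] at hx'
      obtain ⟨m, hm, hmx⟩ := hx'
      obtain ⟨z, hz, rfl⟩ := Finset.mem_image.mp hm
      exact mem_of_root hf.1 hf.2.1 hd ((hZm z).mp hz) hmx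
    · intro hx
      exact MZ_root ((hZm x).mpr hx)
  have hdvd : MZ Z ∣ f - f %ₘ MZ Z := by
    refine ⟨f /ₘ MZ Z, ?_⟩
    have := modByMonic_add_div f (MZ Z)
    linear_combination -this
  have hadm : (MZ Z, f %ₘ MZ Z) ∈ Adm F D k := by
    refine ⟨hmon, h4, ?_, ?_, ?_, ?_⟩
    · have := degree_modByMonic_lt f hmon
      rwa [degree_eq_natDegree hmon.ne_zero, h4] at this
    · show (Rt (MZ Z)).ncard = k
      rw [hRt, h2]
    · intro x hx
      have hx' : x ∈ Pre D f := by rw [← hRt]; exact hx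
      exact hx'.2
    · intro x hx
      have hx' : x ∈ Pre D f := by rw [← hRt]; exact hx
      show aeval x (f %ₘ MZ Z) ∈ Rt (MZ Z)
      rw [← act_of_dvd hdvd hx, hRt]
      exact act_mem hf.1 hf.2.1 hd hx'
  rw [Set.mem_iUnion]
  exact ⟨⟨_, hadm⟩, hf, hRt.symm, hdvd⟩

theorem tdeg_prod_le {s : Finset F[X][X]} (hs : ∀ m ∈ s, m ≠ 0) :
    tdeg (∏ m ∈ s, m) ≤ ∑ m ∈ s, tdeg m := by
  classical
  induction s using Finset.induction_on with
  | empty =>
    rw [Finset.prod_empty, Finset.sum_empty, tdeg_le_iff]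
    intro j
    rw [coeff_one]
    split_ifs <;> simp
  | insert p s hp ih =>
    rw [Finset.prod_insert hp, Finset.sum_insert hp, tdeg_mul (hs p (Finset.mem_insert_self p s))
      (Finset.prod_ne_zero_iff.mpr fun m hm => hs m (Finset.mem_insert_of_mem hm))]
    have := ih fun m hm => hs m (Finset.mem_insert_of_mem hm)
    omega

theorem tdeg_adm [Fintype F] {D k d n : ℕ} (hd : 2 ≤ d) {p : F[X][X] × F[X][X]}
    (hp : p ∈ Adm F D k) {f : F[X][X]} (hf : f ∈ Por D d n p) : tdeg p.1 ≤ n * (k * D) := by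
  classical
  have hfin := rt_finite hp.1.ne_zero
  set Z := hfin.toFinset with hZ
  have hZm : ∀ z, z ∈ Z ↔ z ∈ Rt p.1 := fun z => hfin.mem_toFinset
  have hZc : Z.card = k := by rw [← Set.ncard_eq_toFinset_card _ hfin]; exact hp.2.2.2.1
  have hint : ∀ z ∈ Z, IsIntegral F[X] z := fun z hz => rt_integral hp.1 ((hZm z).mp hz)
  have h1 : MZ Z ∣ p.1 := MZ_dvd hint fun z hz => (hZm z).mp hz
  have h2 : p.1 = MZ Z := by
    apply eq_of_monic_of_dvd_of_natDegree_le (MZ_monic hint) hp.1 h1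
    rw [hp.2.1, ← hZc]
    exact card_le_MZ hint
  rw [h2]
  unfold MZ
  refine (tdeg_prod_le ?_).trans ?_
  · intro m hm
    obtain ⟨z, hz, rfl⟩ := Finset.mem_image.mp hm
    exact (minpoly.monic (hint z hz)).ne_zero
  · refine (Finset.sum_le_card_nsmul _ _ (n * D) ?_).trans ?_
    · intro m hm
      obtain ⟨z, hz, rfl⟩ := Finset.mem_image.mp hm
      have hz' : z ∈ Pre D f := by rw [hf.2.1]; exact (hZm z).mp hz
      exact tdeg_minpoly_le hf.1 hd hz'
    · rw [smul_eq_mul]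
      have : (Z.image (minpoly F[X])).card ≤ k := hZc ▸ Finset.card_image_le
      calc _ ≤ k * (n * D) := Nat.mul_le_mul_right _ this
        _ = n * (k * D) := by ring

theorem adm_count [Fintype F] {D k : ℕ} (hk : 1 ≤ k) (h : ℕ) :
    {p : F[X][X] × F[X][X] | p ∈ Adm F D k ∧ tdeg p.1 ≤ h}.Finite ∧
    {p : F[X][X] × F[X][X] | p ∈ Adm F D k ∧ tdeg p.1 ≤ h}.ncard ≤
      (Fintype.card F ^ ((D + 1) * (h + 1)) * D) ^ (2 * k) := by
  classical
  set S := {p : F[X][X] × F[X][X] | p ∈ Adm F D k ∧ tdeg p.1 ≤ h} with hS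
  let P : Finset (Om F) := (Pts_card (F := F) D h).1.toFinset
  have hPc : P.card ≤ Fintype.card F ^ ((D + 1) * (h + 1)) * D := by
    have := (Pts_card (F := F) D h).2
    rwa [Set.ncard_eq_toFinset_card _ (Pts_card (F := F) D h).1] at this
  let I : Finset ((Fin k → Om F) × (Fin k → Om F)) :=
    (Fintype.piFinset fun _ => P) ×ˢ (Fintype.piFinset fun _ => P)
  have hI : I.card ≤ (Fintype.card F ^ ((D + 1) * (h + 1)) * D) ^ (2 * k) := by
    simp only [I]
    rw [Finset.card_product, Fintype.card_piFinset, Finset.prod_const, Finset.card_univ,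
      Fintype.card_fin, ← pow_add, ← two_mul]
    exact Nat.pow_le_pow_left hPc _
  have hex : ∀ p : F[X][X] × F[X][X], p ∈ Adm F D k → ∃ x : Fin k → Om F, Set.range x = Rt p.1 := by
    intro p hp
    have hfin := rt_finite hp.1.ne_zero
    have hZc : hfin.toFinset.card = k := by
      rw [← Set.ncard_eq_toFinset_card _ hfin]; exact hp.2.2.2.1
    let g := hfin.toFinset.equivFinOfCardEq hZc
    refine ⟨fun i => (g.symm i : Om F), ?_⟩
    ext z
    constructor
    · rintro ⟨i, rfl⟩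
      exact hfin.mem_toFinset.mp (g.symm i).2
    · intro hz
      refine ⟨g ⟨z, hfin.mem_toFinset.mpr hz⟩, ?_⟩
      simp
  choose! xs hxs using hex
  have hpts : ∀ p ∈ S, ∀ z ∈ Rt p.1, z ∈ Pts F D h := by
    intro p hp z hz
    have hint := rt_integral hp.1.1 hz
    refine ⟨hint, (natDegree_minpoly hint).trans_le (hp.1.2.2.2.2.1 z hz), ?_⟩
    exact (tdeg_le_of_dvd (minpoly.isIntegrallyClosed_dvd hint hz) hp.1.1.ne_zero).trans hp.2
  have hmaps : Set.MapsTo (fun p : F[X][X] × F[X][X] => (xs p, fun i => aeval (xs p i) p.2))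
      S (↑I : Set _) := by
    intro p hp
    have h1 : ∀ i, xs p i ∈ Rt p.1 := by
      intro i
      rw [← hxs p hp.1]
      exact ⟨i, rfl⟩
    simp only [I, P, Finset.coe_product, Set.mem_prod, Finset.mem_coe, Fintype.mem_piFinset,
      Set.Finite.mem_toFinset]
    exact ⟨fun i => hpts p hp _ (h1 i), fun i => hpts p hp _ (hp.1.2.2.2.2.2 _ (h1 i))⟩
  have hinj : Set.InjOn (fun p : F[X][X] × F[X][X] => (xs p, fun i => aeval (xs p i) p.2)) S := by
    intro p hp p' hp' heq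
    have e1 : xs p = xs p' := congrArg Prod.fst heq
    have e2 : (fun i => aeval (xs p i) p.2) = fun i => aeval (xs p' i) p'.2 := congrArg Prod.snd heq
    have e3 : Rt p.1 = Rt p'.1 := by rw [← hxs p hp.1, ← hxs p' hp'.1, e1]
    apply adm_ext hk hp.1 hp'.1 e3
    intro x hx
    rw [← hxs p hp.1] at hx
    obtain ⟨i, rfl⟩ := hx
    have := congrFun e2 i
    rw [this, e1]
  refine ⟨Set.Finite.of_injOn hmaps hinj I.finite_toSet, ?_⟩
  refine (Set.ncard_le_ncard_of_injOn _ hmaps hinj I.finite_toSet).trans ?_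
  rw [Set.ncard_coe_finset]
  exact hI

end Pool.Agent.R414.FF
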