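import Pool.Agent.R414.FF.D

/-!
# The limit law
-/

set_option autoImplicit false

open Polynomial Filter Topology

namespace Pool.Agent.R414.FF

variable {F : Type*} [Field F]

theorem q_two [Fintype F] : (2 : ℝ) ≤ Fintype.card F := by
  exact_mod_cast (Fintype.one_lt_card : 1 < Fintype.card F)

theorem summable_w [Fintype F] {D k : ℕ} (hk : 1 ≤ k) {b : ℕ} (hb : (D + 1) * (2 * k) + 1 ≤ b) :
    Summable fun p : Adm F D k => (((Fintype.card F : ℝ) ^ (b * tdeg p.1.1))⁻¹) := by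
  classical
  set q : ℝ := (Fintype.card F : ℝ) with hq
  have hq2 : (2 : ℝ) ≤ q := q_two
  have hq0 : (0 : ℝ) < q := by linarith
  set κ := (D + 1) * (2 * k) with hκ
  refine summable_of_sum_le (c := 2 * (D : ℝ) ^ (2 * k) * q ^ κ) (fun p => by positivity) ?_
  intro s
  set H := s.sup fun p => tdeg p.1.1 with hH
  have hmaps : ∀ p ∈ s, tdeg p.1.1 ∈ Finset.range (H + 1) := by
    intro p hp
    rw [Finset.mem_range]
    exact Nat.lt_succ_of_le (Finset.le_sup (f := fun p : Adm F D k => tdeg p.1.1) hp)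
  rw [← Finset.sum_fiberwise_of_maps_to hmaps]
  have key : ∀ h ∈ Finset.range (H + 1),
      ∑ p ∈ s with tdeg p.1.1 = h, ((q ^ (b * tdeg p.1.1))⁻¹) ≤
        (D : ℝ) ^ (2 * k) * q ^ κ * (1 / 2) ^ h := by
    intro h _
    have h1 : ∑ p ∈ s with tdeg p.1.1 = h, ((q ^ (b * tdeg p.1.1))⁻¹) =
        ((s.filter fun p => tdeg p.1.1 = h).card : ℝ) * (q ^ (b * h))⁻¹ := by
      rw [Finset.sum_congr rfl (g := fun _ => (q ^ (b * h))⁻¹), Finset.sum_const, nsmul_eq_mul]
      intro p hp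
      rw [(Finset.mem_filter.mp hp).2]
    rw [h1]
    obtain ⟨hfin, hc⟩ := adm_count (F := F) (D := D) hk h
    have h2 : (s.filter fun p => tdeg p.1.1 = h).card ≤
        (Fintype.card F ^ ((D + 1) * (h + 1)) * D) ^ (2 * k) := by
      refine le_trans ?_ hc
      rw [Set.ncard_eq_toFinset_card _ hfin]
      refine Finset.card_le_card_of_injOn (fun p => p.1) ?_ (fun a _ b _ hab => Subtype.ext hab)
      intro p hp
      have := (Finset.mem_filter.mp hp).2
      simp only [Set.Finite.coe_toFinset]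
      exact ⟨p.2, this.le⟩
    have h3 : ((s.filter fun p => tdeg p.1.1 = h).card : ℝ) ≤
        (D : ℝ) ^ (2 * k) * q ^ κ * q ^ (κ * h) := by
      have h4 : ((s.filter fun p => tdeg p.1.1 = h).card : ℝ) ≤
          (q ^ ((D + 1) * (h + 1)) * D) ^ (2 * k) := by
        rw [hq]
        exact_mod_cast h2
      refine h4.trans (le_of_eq ?_)
      rw [mul_pow, ← pow_mul, mul_comm, mul_assoc ((D : ℝ) ^ (2 * k)), ← pow_add]
      congr 2
      rw [hκ]
      ring
    have h5 : q ^ (κ * h) * (q ^ (b * h))⁻¹ ≤ (1 / 2) ^ h := by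
      rw [one_div, inv_pow, ← div_eq_mul_inv, div_le_iff₀ (by positivity), ← div_eq_inv_mul,
        le_div_iff₀ (by positivity)]
      calc q ^ (κ * h) * 2 ^ h ≤ q ^ (κ * h) * q ^ h := by gcongr
        _ = q ^ (κ * h + h) := (pow_add _ _ _).symm
        _ ≤ q ^ (b * h) := by
          apply pow_le_pow_right₀ (by linarith)
          calc κ * h + h = (κ + 1) * h := by ring
            _ ≤ b * h := Nat.mul_le_mul_right _ hb
    calc ((s.filter fun p => tdeg p.1.1 = h).card : ℝ) * (q ^ (b * h))⁻¹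
        ≤ (D : ℝ) ^ (2 * k) * q ^ κ * q ^ (κ * h) * (q ^ (b * h))⁻¹ := by gcongr
      _ = (D : ℝ) ^ (2 * k) * q ^ κ * (q ^ (κ * h) * (q ^ (b * h))⁻¹) := by ring
      _ ≤ (D : ℝ) ^ (2 * k) * q ^ κ * (1 / 2) ^ h := by gcongr
  refine (Finset.sum_le_sum key).trans ?_
  rw [← Finset.mul_sum]
  have h9 := sum_geometric_two_le (H + 1)
  calc _ ≤ (D : ℝ) ^ (2 * k) * q ^ κ * 2 := by gcongr
    _ = _ := by ring

/-- the number of elements of a disjoint union as a series -/
theorem ncard_tsum {ι α : Type*} {s : ι → Set α} (hfin : (⋃ i, s i).Finite)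
    (hd : ∀ i j, ∀ x, x ∈ s i → x ∈ s j → i = j) :
    (((⋃ i, s i).ncard : ℕ) : ℝ) = ∑' i, ((s i).ncard : ℝ) := by
  classical
  rcases isEmpty_or_nonempty ι with h0 | h0
  · simp
  have hex : ∀ x, x ∈ (⋃ i, s i) → ∃ i, x ∈ s i := fun x hx => Set.mem_iUnion.mp hx
  choose! φ hφ using hex
  set U := hfin.toFinset with hU
  have hUm : ∀ x, x ∈ U ↔ x ∈ ⋃ i, s i := fun x => hfin.mem_toFinset
  have hsi : ∀ i, ((s i).ncard) = (U.filter fun x => φ x = i).card := by
    intro i
    rw [← Set.ncard_coe_finset]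
    congr 1
    ext x
    rw [Finset.coe_filter]
    constructor
    · intro hx
      have hxU : x ∈ ⋃ i, s i := Set.mem_iUnion.mpr ⟨i, hx⟩
      exact ⟨(hUm x).mpr hxU, hd _ _ x (hφ x hxU) hx⟩
    · rintro ⟨hx, rfl⟩
      exact hφ x ((hUm x).mp hx)
  rw [tsum_eq_sum (s := U.image φ)]
  · rw [Set.ncard_eq_toFinset_card _ hfin, Finset.card_eq_sum_card_image φ, Nat.cast_sum]
    apply Finset.sum_congr rfl
    intro i _
    rw [hsi i]
  · intro i hi
    rw [hsi i, Nat.cast_eq_zero, Finset.card_eq_zero, Finset.filter_eq_empty_iff]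
    intro x hx hxi
    exact hi (hxi ▸ Finset.mem_image_of_mem _ hx)

/-- the weight of a portrait -/
noncomputable def wt (F : Type*) [Field F] [Fintype F] (a : ℕ) (p : F[X][X] × F[X][X]) : ℝ :=
  ((Fintype.card F : ℝ) ^ (a * tdeg p.1))⁻¹

theorem por_bound [Fintype F] {D k d n : ℕ} (hd : 2 ≤ d)
    (hdk : ((D + 1) * (2 * k) + 1) * (k * D + 1) ≤ d - k) {p : F[X][X] × F[X][X]}
    (hp : p ∈ Adm F D k) :
    ((Por D d n p).ncard : ℝ) / (Fintype.card F : ℝ) ^ ((d - k) * n) ≤
      wt F ((D + 1) * (2 * k) + 1) p := by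
  classical
  set q : ℝ := (Fintype.card F : ℝ) with hq
  have hq2 : (2 : ℝ) ≤ q := q_two
  have hq0 : (0 : ℝ) < q := by linarith
  rcases (Por D d n p).eq_empty_or_nonempty with h0 | ⟨f, hf⟩
  · rw [h0, Set.ncard_empty, Nat.cast_zero, zero_div]
    unfold wt
    positivity
  · have h1 := tdeg_adm hd hp hf
    obtain ⟨hfin, hc⟩ := cls_card_le hp.1 d n p.2
    have h2 := (Set.ncard_le_ncard (por_sub_cls (D := D) (d := d) (n := n) p) hfin).trans hc
    rw [hp.2.1] at h2
    have h3 : ((Por D d n p).ncard : ℝ) ≤ q ^ ((d - k) * (n - tdeg p.1)) := by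
      rw [hq]
      exact_mod_cast h2
    have h4 := arith (κ := (D + 1) * (2 * k)) (n := n) (h := tdeg p.1) hdk h1
    unfold wt
    rw [div_le_iff₀ (by positivity), ← div_eq_inv_mul, le_div_iff₀ (by positivity)]
    calc ((Por D d n p).ncard : ℝ) * q ^ (((D + 1) * (2 * k) + 1) * tdeg p.1)
        ≤ q ^ ((d - k) * (n - tdeg p.1)) * q ^ (((D + 1) * (2 * k) + 1) * tdeg p.1) := by gcongr
      _ = q ^ ((d - k) * (n - tdeg p.1) + ((D + 1) * (2 * k) + 1) * tdeg p.1) :=
        (pow_add _ _ _).symm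
      _ ≤ q ^ ((d - k) * n) := by
        apply pow_le_pow_right₀ (by linarith)
        nlinarith

/-- polynomials with more points are negligible -/
theorem many_tendsto [Fintype F] {k k' D d : ℕ} (hdk : k + 1 ≤ d) {C : ℝ} (hC : 0 ≤ C)
    (h : ∀ n, ((Many F D k' (k + 1) d n).ncard : ℝ) ≤
      C * (Fintype.card F : ℝ) ^ ((d - (k + 1)) * n)) :
    Tendsto (fun n : ℕ => ((Many F D k' (k + 1) d n).ncard : ℝ) /
      (Fintype.card F : ℝ) ^ ((d - k) * n)) atTop (𝓝 0) := by
  set q : ℝ := (Fintype.card F : ℝ) with hq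
  have hq2 : (2 : ℝ) ≤ q := q_two
  have hq0 : (0 : ℝ) < q := by linarith
  have h1 : Tendsto (fun n : ℕ => C * (1 / 2 : ℝ) ^ n) atTop (𝓝 0) := by
    have := (tendsto_pow_atTop_nhds_zero_of_lt_one (by norm_num : (0 : ℝ) ≤ 1 / 2)
      (by norm_num)).const_mul C
    rwa [mul_zero] at this
  refine squeeze_zero (fun n => by positivity) (fun n => ?_) h1
  rw [div_le_iff₀ (by positivity)]
  refine (h n).trans ?_
  rw [mul_assoc]
  refine mul_le_mul_of_nonneg_left ?_ hC
  rw [one_div, inv_pow, ← div_eq_inv_mul, le_div_iff₀ (by positivity)]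
  calc q ^ ((d - (k + 1)) * n) * 2 ^ n ≤ q ^ ((d - (k + 1)) * n) * q ^ n := by gcongr
    _ = q ^ ((d - (k + 1)) * n + n) := (pow_add _ _ _).symm
    _ = q ^ ((d - k) * n) := by
      congr 1
      obtain ⟨c, rfl⟩ := Nat.exists_eq_add_of_le hdk
      have e1 : k + 1 + c - (k + 1) = c := by omega
      have e2 : k + 1 + c - k = c + 1 := by omega
      rw [e1, e2]
      ring

theorem por_tendsto [Fintype F] {D k d : ℕ} (hd : 2 ≤ d) (hkd : k ≤ d)
    {p : F[X][X] × F[X][X]} (hp : p ∈ Adm F D k)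
    (hfin : ∀ n, (Many F D (k + 1) (k + 1) d n).Finite)
    (hM : Tendsto (fun n : ℕ => ((Many F D (k + 1) (k + 1) d n).ncard : ℝ) /
      (Fintype.card F : ℝ) ^ ((d - k) * n)) atTop (𝓝 0)) :
    Tendsto (fun n : ℕ => ((Por D d n p).ncard : ℝ) / (Fintype.card F : ℝ) ^ ((d - k) * n)) atTop
      (𝓝 (wt F (d - k) p)) := by
  classical
  set q : ℝ := (Fintype.card F : ℝ) with hq
  have hq2 : (2 : ℝ) ≤ q := q_two
  have hq0 : (0 : ℝ) < q := by linarith
  obtain ⟨n₁, hn₁⟩ := cls_card hp.1 (d := d) (by rw [hp.2.1]; exact hkd) (r := p.2)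
    (by rw [degree_eq_natDegree hp.1.ne_zero, hp.2.1]; exact hp.2.2.1)
  have hcls : ∀ n, max n₁ (tdeg p.1) ≤ n →
      ((Cls F d n p.1 p.2).ncard : ℝ) / q ^ ((d - k) * n) = wt F (d - k) p := by
    intro n hn
    rw [hn₁ n ((le_max_left _ _).trans hn), hp.2.1]
    unfold wt
    obtain ⟨m, rfl⟩ := Nat.exists_eq_add_of_le ((le_max_right _ _).trans hn)
    rw [Nat.add_sub_cancel_left, Nat.cast_pow, mul_add, pow_add, ← hq]
    field_simp
  have hlow : Tendsto (fun n : ℕ => wt F (d - k) p -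
      ((Many F D (k + 1) (k + 1) d n).ncard : ℝ) / q ^ ((d - k) * n)) atTop
      (𝓝 (wt F (d - k) p)) := by
    have := (tendsto_const_nhds (x := wt F (d - k) p)).sub hM
    rwa [sub_zero] at this
  refine tendsto_of_tendsto_of_tendsto_of_le_of_le' hlow tendsto_const_nhds ?_ ?_
  · filter_upwards [eventually_ge_atTop (max n₁ (tdeg p.1))] with n hn
    rw [← hcls n hn, ← sub_div]
    gcongr
    have h1 := cls_sub (n := n) hd hp
    have h2 : (Cls F d n p.1 p.2).ncard ≤
        (Por D d n p).ncard + (Many F D (k + 1) (k + 1) d n).ncard := by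
      refine (Set.ncard_le_ncard h1 ?_).trans (Set.ncard_union_le _ _)
      exact ((cls_card_le hp.1 d n p.2).1.subset (por_sub_cls p)).union (hfin n)
    have h3 : ((Cls F d n p.1 p.2).ncard : ℝ) ≤
        (Por D d n p).ncard + (Many F D (k + 1) (k + 1) d n).ncard := by exact_mod_cast h2
    linarith
  · filter_upwards [eventually_ge_atTop (max n₁ (tdeg p.1))] with n hn
    rw [← hcls n hn]
    gcongr
    · exact (cls_card_le hp.1 d n p.2).1
    · exact por_sub_cls p

/-- the number of polynomials with at least `k` preperiodic points -/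
theorem least_tendsto [Fintype F] {D k : ℕ} (hk : 1 ≤ k) : ∃ d₀, ∀ d, d₀ ≤ d →
    (Summable fun p : Adm F D k => wt F (d - k) p.1) ∧
    Tendsto (fun n : ℕ => ((Least F D k d n).ncard : ℝ) / (Fintype.card F : ℝ) ^ ((d - k) * n))
      atTop (𝓝 (∑' p : Adm F D k, wt F (d - k) p.1)) ∧
    (∀ p ∈ Adm F D k, Tendsto (fun n : ℕ => ((Por D d n p).ncard : ℝ) /
      (Fintype.card F : ℝ) ^ ((d - k) * n)) atTop (𝓝 (wt F (d - k) p))) ∧
    Tendsto (fun n : ℕ => ((Least F D (k + 1) d n).ncard : ℝ) /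
      (Fintype.card F : ℝ) ^ ((d - k) * n)) atTop (𝓝 0) := by
  classical
  obtain ⟨d₁, hd₁⟩ := many_card (F := F) D (k + 1) (k + 1) (by omega)
  obtain ⟨d₂, hd₂⟩ := many_card (F := F) D k (k + 1) hk
  refine ⟨d₁ + d₂ + 2 + k + ((D + 1) * (2 * k) + 1) * (k * D + 1), fun d hd => ?_⟩
  obtain ⟨C₁, hC₁, h₁⟩ := hd₁ d (by omega)
  obtain ⟨C₂, hC₂, h₂⟩ := hd₂ d (by omega)
  have hd2 : 2 ≤ d := by omega
  have hkd : k + 1 ≤ d := by omega
  have hdk : ((D + 1) * (2 * k) + 1) * (k * D + 1) ≤ d - k := by omega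
  have hM₁ := many_tendsto hkd hC₁ fun n => (h₁ n).2
  have hM₂ := many_tendsto hkd hC₂ fun n => (h₂ n).2
  have hPor : ∀ p ∈ Adm F D k, Tendsto (fun n : ℕ => ((Por D d n p).ncard : ℝ) /
      (Fintype.card F : ℝ) ^ ((d - k) * n)) atTop (𝓝 (wt F (d - k) p)) :=
    fun p hp => por_tendsto hd2 (by omega) hp (fun n => (h₁ n).1) hM₁
  have hb : (D + 1) * (2 * k) + 1 ≤ d - k :=
    (Nat.le_mul_of_pos_right _ (Nat.succ_pos _)).trans hdk
  have hsum : Summable fun p : Adm F D k => wt F (d - k) p.1 := summable_w hk hb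
  have hsum' : Summable fun p : Adm F D k => wt F ((D + 1) * (2 * k) + 1) p.1 :=
    summable_w hk le_rfl
  have htan : Tendsto (fun n : ℕ => ∑' p : Adm F D k, ((Por D d n p.1).ncard : ℝ) /
      (Fintype.card F : ℝ) ^ ((d - k) * n)) atTop (𝓝 (∑' p : Adm F D k, wt F (d - k) p.1)) := by
    apply tendsto_tsum_of_dominated_convergence hsum' (fun p => hPor p.1 p.2)
    refine Eventually.of_forall fun n p => ?_
    rw [Real.norm_of_nonneg (by positivity)]
    exact por_bound hd2 hdk p.2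
  have hMon : ∀ n, (Mon F d n).Finite := by
    intro n
    have h3 := fiber (F := F) (M := 1) monic_one (d := d) (n := n) (S := Mon F d n)
      (fun f hf => hf) (fun f _ g _ => one_dvd _)
    exact h3.1
  have hLfin : ∀ k n, (Least F D k d n).Finite := fun k n => (hMon n).subset fun f hf => hf.1
  have hUsub : ∀ n, (⋃ p : Adm F D k, Por D d n p.1) ⊆ Least F D k d n := by
    intro n
    apply Set.iUnion_subset
    intro p
    exact por_sub_least p.2
  have htsum : ∀ n, ∑' p : Adm F D k, ((Por D d n p.1).ncard : ℝ) /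
      (Fintype.card F : ℝ) ^ ((d - k) * n) =
      ((⋃ p : Adm F D k, Por D d n p.1).ncard : ℝ) / (Fintype.card F : ℝ) ^ ((d - k) * n) := by
    intro n
    rw [tsum_div_const, ncard_tsum ((hLfin k n).subset (hUsub n))]
    intro i j x hi hj
    exact Subtype.ext (por_disj hk i.2 j.2 hi hj)
  refine ⟨hsum, ?_, hPor, ?_⟩
  · have hup : Tendsto (fun n : ℕ => ∑' p : Adm F D k, ((Por D d n p.1).ncard : ℝ) /
        (Fintype.card F : ℝ) ^ ((d - k) * n) +
        (((Many F D (k + 1) (k + 1) d n).ncard : ℝ) / (Fintype.card F : ℝ) ^ ((d - k) * n) +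
        ((Many F D k (k + 1) d n).ncard : ℝ) / (Fintype.card F : ℝ) ^ ((d - k) * n))) atTop
        (𝓝 (∑' p : Adm F D k, wt F (d - k) p.1)) := by
      have := htan.add (hM₁.add hM₂)
      rwa [add_zero, add_zero] at this
    refine tendsto_of_tendsto_of_tendsto_of_le_of_le htan hup ?_ ?_
    · intro n
      simp only [htsum]
      have := Set.ncard_le_ncard (hUsub n) (hLfin k n)
      gcongr
    · intro n
      simp only [htsum]
      rw [← add_div, ← add_div]
      have h3 := Set.ncard_le_ncard (least_sub (F := F) (D := D) (n := n) hk hd2)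
        (((hLfin k n).subset (hUsub n)).union ((h₁ n).1.union (h₂ n).1))
      have h4 := h3.trans ((Set.ncard_union_le _ _).trans
        (Nat.add_le_add_left (Set.ncard_union_le _ _) _))
      have h5 : ((Least F D k d n).ncard : ℝ) ≤ ((⋃ p : Adm F D k, Por D d n p.1).ncard : ℝ) +
          (((Many F D (k + 1) (k + 1) d n).ncard : ℝ) + ((Many F D k (k + 1) d n).ncard : ℝ)) := by
        exact_mod_cast h4
      gcongr
  · refine squeeze_zero (fun n => by positivity) (fun n => ?_) hM₁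
    have h3 : Least F D (k + 1) d n ⊆ Many F D (k + 1) (k + 1) d n := fun f hf =>
      many_of_card hf.1 hd2 hf.2
    have h4 := Set.ncard_le_ncard h3 (h₁ n).1
    gcongr

end Pool.Agent.R414.FF
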