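import Pool.Agent.R414.FF.E

/-!
# Isotrivial polynomials with a preperiodic point are rare
-/

set_option autoImplicit false

open Polynomial Filter Topology

namespace Pool.Agent.R414.FF

variable {F : Type*} [Field F]

/-- `f` is conjugate by an affine map to a polynomial with coefficients algebraic over `F` -/
def Isotriv (f : F[X][X]) : Prop :=
  ∃ α β : Om F, α ≠ 0 ∧ ∃ c : (Om F)[X], (∀ j, IsAlgebraic F (c.coeff j)) ∧
    ∀ z : Om F, α * act f z + β = c.eval (α * z + β)

theorem comp_iter (c : (Om F)[X]) (y : Om F) (m : ℕ) :
    (fun z => c.eval z)^[m] y = ((c.comp)^[m] X).eval y := by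
  induction m with
  | zero => simp
  | succ m ih => rw [Function.iterate_succ_apply', Function.iterate_succ_apply', ih, eval_comp]

/-- preperiodic points of a polynomial over the constants are constant -/
theorem alg_of_pre {c : (Om F)[X]} (hc : ∀ j, IsAlgebraic F (c.coeff j)) (hd : 2 ≤ c.natDegree)
    {y : Om F} {m n : ℕ} (hmn : m < n) (h : (fun z => c.eval z)^[m] y = (fun z => c.eval z)^[n] y) :
    IsIntegral F y := by
  let L := algebraicClosure F (Om F)
  have hl : c ∈ lifts (algebraMap L (Om F)) := by
    rw [lifts_iff_coeff_lifts]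
    intro j
    exact ⟨⟨c.coeff j, mem_algebraicClosure_iff.mpr (hc j)⟩, rfl⟩
  obtain ⟨c', hc'⟩ := (mem_lifts _).mp hl
  have hinj : Function.Injective (algebraMap L (Om F)) := (algebraMap L (Om F)).injective
  have hdeg : c'.natDegree = c.natDegree := by
    rw [← hc', natDegree_map_eq_of_injective hinj]
  have hmap : ∀ m, ((c'.comp)^[m] X).map (algebraMap L (Om F)) = (c.comp)^[m] X := by
    intro m
    induction m with
    | zero => simp
    | succ m ih =>
      rw [Function.iterate_succ_apply', Function.iterate_succ_apply', Polynomial.map_comp, ih, hc']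
  have hnd : ∀ m, ((c'.comp)^[m] X).natDegree = c.natDegree ^ m := by
    intro m
    induction m with
    | zero => simp
    | succ m ih =>
      rw [Function.iterate_succ_apply', natDegree_comp, ih, hdeg, pow_succ, mul_comm]
  have hne : (c'.comp)^[m] X - (c'.comp)^[n] X ≠ 0 := by
    intro h0
    have h1 := congrArg natDegree (sub_eq_zero.mp h0)
    rw [hnd, hnd] at h1
    exact absurd h1 (Nat.pow_lt_pow_right (by omega) hmn).ne
  have halg : IsAlgebraic L y := by
    refine ⟨_, hne, ?_⟩
    rw [map_sub, aeval_def, aeval_def, ← eval_map, ← eval_map, hmap, hmap, ← comp_iter,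
      ← comp_iter, h, sub_self]
  exact isIntegral_trans (R := F) (A := L) y halg.isIntegral

/-- constants are preperiodic for a polynomial over the constants -/
theorem pre_of_alg [Finite F] {c : (Om F)[X]} (hc : ∀ j, IsAlgebraic F (c.coeff j)) {e : Om F}
    (he : IsIntegral F e) :
    ∃ m n : ℕ, m < n ∧ (fun z => c.eval z)^[m] e = (fun z => c.eval z)^[n] e := by
  classical
  let S : Set (Om F) := insert e (↑c.coeffs : Set (Om F))
  have hS : Finite S := ((c.coeffs.finite_toSet).insert e).to_subtype
  have hint : ∀ x ∈ S, IsIntegral F x := by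
    intro x hx
    rcases hx with rfl | hx
    · exact he
    · rw [Finset.mem_coe, mem_coeffs_iff] at hx
      obtain ⟨j, -, rfl⟩ := hx
      exact (hc j).isIntegral
  let E := IntermediateField.adjoin F S
  have hE : FiniteDimensional F E := IntermediateField.finiteDimensional_adjoin hint
  have hEf : Finite E := Module.finite_of_finite F
  have hfin : (E : Set (Om F)).Finite := Set.toFinite _
  have hcE : ∀ j, c.coeff j ∈ E := by
    intro j
    by_cases h0 : c.coeff j = 0
    · rw [h0]; exact zero_mem _
    · apply IntermediateField.subset_adjoin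
      right
      rw [Finset.mem_coe]
      exact coeff_mem_coeffs h0
  have hstep : ∀ w ∈ E, c.eval w ∈ E := by
    intro w hw
    rw [eval_eq_sum_range]
    exact sum_mem fun i _ => mul_mem (hcE i) (pow_mem hw i)
  have hit : ∀ m : ℕ, (fun z => c.eval z)^[m] e ∈ (E : Set (Om F)) := by
    intro m
    induction m with
    | zero => exact IntermediateField.subset_adjoin _ _ (Set.mem_insert _ _)
    | succ m ih => rw [Function.iterate_succ_apply']; exact hstep _ ih
  obtain ⟨m, n, hmn, h⟩ := hfin.exists_lt_map_eq_of_forall_mem
    (f := fun m : ℕ => (fun z => c.eval z)^[m] e) hit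
  exact ⟨m, n, hmn, h⟩

theorem natDegree_add_le (x y : Om F) : (minpoly (RatFunc F) (x + y)).natDegree ≤
    (minpoly (RatFunc F) x).natDegree * (minpoly (RatFunc F) y).natDegree := by
  have hx : IsIntegral (RatFunc F) x := Algebra.IsIntegral.isIntegral _
  have hy : IsIntegral (RatFunc F) y := Algebra.IsIntegral.isIntegral _
  have hxy : IsIntegral (RatFunc F) (x + y) := Algebra.IsIntegral.isIntegral _
  rw [← IntermediateField.adjoin.finrank hx, ← IntermediateField.adjoin.finrank hy,
    ← IntermediateField.adjoin.finrank hxy]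
  have hfx : FiniteDimensional (RatFunc F) (IntermediateField.adjoin (RatFunc F) {x}) :=
    IntermediateField.adjoin.finiteDimensional hx
  have hfy : FiniteDimensional (RatFunc F) (IntermediateField.adjoin (RatFunc F) {y}) :=
    IntermediateField.adjoin.finiteDimensional hy
  have hle : IntermediateField.adjoin (RatFunc F) {x + y} ≤
      IntermediateField.adjoin (RatFunc F) {x} ⊔ IntermediateField.adjoin (RatFunc F) {y} := by
    rw [IntermediateField.adjoin_simple_le_iff]
    apply add_mem
    · exact le_sup_left (a := IntermediateField.adjoin (RatFunc F) {x})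
        (IntermediateField.mem_adjoin_simple_self _ x)
    · exact le_sup_right (b := IntermediateField.adjoin (RatFunc F) {y})
        (IntermediateField.mem_adjoin_simple_self _ y)
  exact (IntermediateField.finrank_le_of_le_right hle).trans (IntermediateField.finrank_sup_le _ _)

theorem iso_many [Finite F] (D k : ℕ) : ∃ D' : ℕ, ∀ d n : ℕ, 2 ≤ d → ∀ f ∈ Mon F d n, Isotriv f →
    (Pre D f).Nonempty → f ∈ Many F D' (k + 1) (k + 1) d n := by
  classical
  let ι : AlgebraicClosure F →ₐ[F] Om F := IsAlgClosed.lift
  obtain ⟨s, hs⟩ := Infinite.exists_subset_card_eq (AlgebraicClosure F) (k + 1)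
  let S : Finset (Om F) := s.map ⟨ι, ι.injective⟩
  have hSc : S.card = k + 1 := by rw [Finset.card_map, hs]
  have hSi : ∀ e ∈ S, IsIntegral F e := by
    intro e he
    obtain ⟨a, -, rfl⟩ := Finset.mem_map.mp he
    exact (Algebra.IsIntegral.isIntegral (R := F) a).map ι
  refine ⟨D * S.sup fun e => (minpoly (RatFunc F) e).natDegree, ?_⟩
  intro d n hd f hf ⟨α, β, hα, c, hc, hconj⟩ ⟨z, ⟨m₀, n₀, hmn₀, hz⟩, hzD⟩
  -- the degree and the leading coefficient of `c`
  have hpoly : C α * f.map (algebraMap F[X] (Om F)) + C β = c.comp (C α * X + C β) := by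
    apply Polynomial.funext
    intro w
    have := hconj w
    unfold act at this
    simp only [eval_add, eval_mul, eval_C, eval_comp, eval_X, eval_map_algebraMap]
    exact this
  have hfd : (f.map (algebraMap F[X] (Om F))).natDegree = d := by
    rw [hf.1.natDegree_map, hf.2.1]
  have hl : (C α * f.map (algebraMap F[X] (Om F)) + C β).natDegree = d := by
    rw [natDegree_add_C, natDegree_C_mul hα, hfd]
  have hlin : (C α * X + C β).natDegree = 1 := natDegree_linear hα
  have hcd : c.natDegree = d := by
    rw [hpoly, natDegree_comp, hlin, mul_one] at hl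
    exact hl
  have hlead : α = c.leadingCoeff * α ^ d := by
    have h1 := congrArg (fun p => p.coeff d) hpoly
    have h2 : (c.comp (C α * X + C β)).coeff d = c.leadingCoeff * α ^ d := by
      have h3 := leadingCoeff_comp (p := c) (q := C α * X + C β) (by rw [hlin]; exact one_ne_zero)
      rw [leadingCoeff_linear hα, hcd] at h3
      rw [← h3, leadingCoeff, natDegree_comp, hlin, mul_one, hcd]
    rw [h2, coeff_add, coeff_C_mul, coeff_C, if_neg (by omega), add_zero] at h1
    have h4 : (f.map (algebraMap F[X] (Om F))).coeff d = 1 := by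
      have := hf.1.map (algebraMap F[X] (Om F))
      rw [Monic, leadingCoeff, hfd] at this
      exact this
    rw [h4, mul_one] at h1
    exact h1
  have hαi : IsIntegral F α := by
    have h1 : c.leadingCoeff * α ^ (d - 1) = 1 := by
      obtain ⟨e, rfl⟩ := Nat.exists_eq_add_of_le hd
      have e1 : 2 + e - 1 = 1 + e := by omega
      rw [e1]
      have h2 : α * (c.leadingCoeff * α ^ (1 + e)) = α * 1 := by
        rw [mul_one]
        conv_rhs => rw [hlead]
        ring
      exact mul_left_cancel₀ hα h2
    have h3 : IsAlgebraic F (α ^ (d - 1)) := by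
      have h4 : α ^ (d - 1) = (c.leadingCoeff)⁻¹ := eq_inv_of_mul_eq_one_right h1
      rw [h4]
      exact (hc _).inv
    exact (IsAlgebraic.of_pow (by omega) h3).isIntegral
  have hsemi : ∀ (m : ℕ) (w : Om F),
      α * (act f)^[m] w + β = (fun z => c.eval z)^[m] (α * w + β) := by
    intro m w
    induction m with
    | zero => simp
    | succ m ih =>
      rw [Function.iterate_succ_apply', Function.iterate_succ_apply', hconj, ih]
  have hy : IsIntegral F (α * z + β) := by
    apply alg_of_pre hc (by omega) hmn₀
    rw [← hsemi, ← hsemi, hz]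
  have hpre : ∀ e ∈ S, z + e ∈ Pre (D * S.sup fun e => (minpoly (RatFunc F) e).natDegree) f := by
    intro e he
    refine ⟨?_, ?_⟩
    · have h1 : IsIntegral F (α * (z + e) + β) := by
        have : α * (z + e) + β = (α * z + β) + α * e := by ring
        rw [this]
        exact hy.add (hαi.mul (hSi e he))
      obtain ⟨m, n', hmn, h⟩ := pre_of_alg hc h1
      refine ⟨m, n', hmn, ?_⟩
      rw [← hsemi, ← hsemi] at h
      exact mul_left_cancel₀ hα (add_right_cancel h)
    · refine (natDegree_add_le z e).trans ?_
      exact Nat.mul_le_mul hzD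
        (Finset.le_sup (f := fun e => (minpoly (RatFunc F) e).natDegree) he)
  apply many_of_finset hf hd (Z := S.map (addLeftEmbedding z))
  · intro w hw
    rw [Finset.mem_coe, Finset.mem_map] at hw
    obtain ⟨e, he, rfl⟩ := hw
    exact hpre e he
  · rw [Finset.card_map, hSc]

end Pool.Agent.R414.FF
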