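import Pool.Agent.R414.FF.G

/-!
# The law of the preperiodic points of the nonisotrivial polynomials
-/

set_option autoImplicit false

open Polynomial Filter Topology

namespace Pool.Agent.R414.FF

variable {F : Type*} [Field F]

theorem close {α : Type*} {S T E : ℕ → Set α} {Q : ℕ → ℝ} {L : ℝ} (hQ : ∀ n, 0 < Q n)
    (h1 : ∀ n, S n ⊆ T n) (h2 : ∀ n, T n ⊆ S n ∪ E n) (hT : ∀ n, (T n).Finite)
    (hE : ∀ n, (E n).Finite) (hTl : Tendsto (fun n => ((T n).ncard : ℝ) / Q n) atTop (𝓝 L))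
    (hEl : Tendsto (fun n => ((E n).ncard : ℝ) / Q n) atTop (𝓝 0)) :
    Tendsto (fun n => ((S n).ncard : ℝ) / Q n) atTop (𝓝 L) := by
  have h3 := hTl.sub hEl
  rw [sub_zero] at h3
  refine tendsto_of_tendsto_of_tendsto_of_le_of_le h3 hTl ?_ ?_
  · intro n
    have h4 : (T n).ncard ≤ (S n).ncard + (E n).ncard :=
      (Set.ncard_le_ncard (h2 n) (((hT n).subset (h1 n)).union (hE n))).trans (Set.ncard_union_le _ _)
    have h5 : ((T n).ncard : ℝ) ≤ (S n).ncard + (E n).ncard := by exact_mod_cast h4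
    simp only
    rw [← sub_div]
    have := (hQ n).le
    gcongr
    linarith
  · intro n
    simp only
    have := (hQ n).le
    gcongr
    · exact hT n
    · exact h1 n

theorem wt_pos [Fintype F] (a : ℕ) (p : F[X][X] × F[X][X]) : 0 < wt F a p := by
  have := q_two (F := F)
  unfold wt
  positivity

theorem exists_adm (D k : ℕ) (hD : 1 ≤ D) (hk : 1 ≤ k) : ∃ p, p ∈ Adm F D k := by
  classical
  let M : F[X][X] := ∏ i ∈ Finset.range k, (X - C ((X : F[X]) ^ (i + 1)))
  have hM : M.Monic := monic_prod_of_monic _ _ fun i _ => monic_X_sub_C _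
  have hMd : M.natDegree = k := by
    simp only [M]
    rw [natDegree_prod_of_monic _ _ fun i _ => monic_X_sub_C _,
      Finset.sum_congr rfl fun i _ => natDegree_X_sub_C _, Finset.sum_const, Finset.card_range,
      smul_eq_mul, mul_one]
  have hRt : Rt M = (fun i : ℕ => algebraMap F[X] (Om F) (X ^ (i + 1))) ''
      (↑(Finset.range k) : Set ℕ) := by
    ext x
    constructor
    · intro hx
      have hx' : aeval x M = 0 := hx
      simp only [M] at hx'
      rw [map_prod, Finset.prod_eq_zero_iff] at hx'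
      obtain ⟨i, hi, h⟩ := hx'
      rw [map_sub, aeval_X, aeval_C, sub_eq_zero] at h
      exact ⟨i, hi, h.symm⟩
    · rintro ⟨i, hi, rfl⟩
      show aeval _ M = 0
      simp only [M]
      rw [map_prod]
      apply Finset.prod_eq_zero hi
      rw [map_sub, aeval_X, aeval_C, sub_self]
  have hinj : Function.Injective fun i : ℕ => algebraMap F[X] (Om F) (X ^ (i + 1)) := by
    intro i j hij
    have h1 := congrArg natDegree (alg_inj hij)
    rw [natDegree_X_pow, natDegree_X_pow] at h1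
    omega
  refine ⟨(M, C X), hM, hMd, ?_, ?_, ?_, ?_⟩
  · rw [degree_C X_ne_zero]
    exact_mod_cast hk
  · show (Rt M).ncard = k
    rw [hRt, Set.ncard_image_of_injective _ hinj, Set.ncard_coe_finset, Finset.card_range]
  · intro x hx
    have hx' : x ∈ Rt M := hx
    rw [hRt] at hx'
    obtain ⟨i, -, rfl⟩ := hx'
    simp only
    rw [IsScalarTower.algebraMap_apply F[X] (RatFunc F) (Om F), minpoly.eq_X_sub_C, natDegree_X_sub_C]
    exact hD
  · intro x _
    show aeval x (C X : F[X][X]) ∈ Rt M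
    rw [hRt, aeval_C]
    exact ⟨0, by rw [Finset.mem_coe, Finset.mem_range]; omega, by simp⟩

/-- the nonisotrivial polynomials with at least `k` preperiodic points of degree at most `D` -/
def LeastN (F : Type*) [Field F] (D k d n : ℕ) : Set F[X][X] :=
  {f | f ∈ Mon F d n ∧ ¬ Isotriv f ∧ k ≤ (Pre D f).ncard}

theorem final [Fintype F] (D k : ℕ) (hD : 1 ≤ D) (hk : 1 ≤ k) : ∃ d₀, ∀ d, d₀ ≤ d →
    (Summable fun p : Adm F D k => wt F (d - k) p.1) ∧
    0 < (∑' p : Adm F D k, wt F (d - k) p.1) ∧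
    Tendsto (fun n : ℕ => ((LeastN F D k d n).ncard : ℝ) / (Fintype.card F : ℝ) ^ ((d - k) * n))
      atTop (𝓝 (∑' p : Adm F D k, wt F (d - k) p.1)) ∧
    Tendsto (fun n : ℕ => (({f | f ∈ Mon F d n ∧ ¬ Isotriv f ∧ (Pre D f).ncard = k}.ncard : ℝ) /
      ((LeastN F D k d n).ncard : ℝ))) atTop (𝓝 1) ∧
    (∀ p ∈ Adm F D k, Tendsto (fun n : ℕ =>
      (({f | f ∈ Mon F d n ∧ ¬ Isotriv f ∧ Pre D f = Rt p.1 ∧ p.1 ∣ f - p.2}.ncard : ℝ) /
      ((LeastN F D k d n).ncard : ℝ))) atTop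
      (𝓝 (wt F (d - k) p / ∑' p : Adm F D k, wt F (d - k) p.1))) ∧
    Tendsto (fun n : ℕ => (({f | f ∈ Mon F d n ∧ Isotriv f ∧ (Pre D f).Nonempty}.ncard : ℝ) /
      (Fintype.card F : ℝ) ^ ((d - k) * n))) atTop (𝓝 0) := by
  classical
  obtain ⟨D', hD'⟩ := iso_many (F := F) D k
  obtain ⟨d₁, hd₁⟩ := least_tendsto (F := F) (D := D) hk
  obtain ⟨d₂, hd₂⟩ := many_card (F := F) D' (k + 1) (k + 1) (by omega)
  refine ⟨d₁ + d₂ + k + 2, fun d hd => ?_⟩
  obtain ⟨hsum, hL, hP, hL1⟩ := hd₁ d (by omega)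
  obtain ⟨C₂, hC₂, h₂⟩ := hd₂ d (by omega)
  have hd2 : 2 ≤ d := by omega
  have hE := many_tendsto (by omega) hC₂ fun n => (h₂ n).2
  set κ := ∑' p : Adm F D k, wt F (d - k) p.1 with hκ
  have hq := q_two (F := F)
  have hQ : ∀ n : ℕ, (0 : ℝ) < (Fintype.card F : ℝ) ^ ((d - k) * n) := fun n => by positivity
  obtain ⟨p₀, hp₀⟩ := exists_adm (F := F) D k hD hk
  have hκ0 : 0 < κ := hsum.tsum_pos (fun p => (wt_pos _ _).le) ⟨p₀, hp₀⟩ (wt_pos _ _)
  have hMon : ∀ n, (Mon F d n).Finite := by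
    intro n
    exact (fiber (F := F) (M := 1) monic_one (d := d) (n := n) (S := Mon F d n)
      (fun f hf => hf) (fun f _ g _ => one_dvd _)).1
  have hiso : ∀ n, ∀ f ∈ Mon F d n, Isotriv f → (Pre D f).Nonempty →
      f ∈ Many F D' (k + 1) (k + 1) d n := fun n f hf hi hne => hD' d n hd2 f hf hi hne
  have hLN : Tendsto (fun n : ℕ => ((LeastN F D k d n).ncard : ℝ) /
      (Fintype.card F : ℝ) ^ ((d - k) * n)) atTop (𝓝 κ) := by
    refine close hQ (T := fun n => Least F D k d n) (E := fun n => Many F D' (k + 1) (k + 1) d n)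
      ?_ ?_ ?_ (fun n => (h₂ n).1) hL hE
    · rintro n f ⟨h1, -, h3⟩
      exact ⟨h1, h3⟩
    · rintro n f ⟨h1, h3⟩
      by_cases hi : Isotriv f
      · right
        refine hiso n f h1 hi ?_
        rw [← Set.ncard_pos (pre_finite h1 hd2)]
        omega
      · exact Or.inl ⟨h1, hi, h3⟩
    · intro n
      exact (hMon n).subset fun f hf => hf.1
  have hEx : Tendsto (fun n : ℕ => (({f | f ∈ Mon F d n ∧ ¬ Isotriv f ∧
      (Pre D f).ncard = k}.ncard : ℝ) / (Fintype.card F : ℝ) ^ ((d - k) * n))) atTop (𝓝 κ) := by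
    refine close hQ (T := fun n => LeastN F D k d n) (E := fun n => Least F D (k + 1) d n)
      ?_ ?_ ?_ ?_ hLN hL1
    · rintro n f ⟨h1, h2, h3⟩
      exact ⟨h1, h2, h3.ge⟩
    · rintro n f ⟨h1, h2, h3⟩
      rcases Nat.eq_or_lt_of_le h3 with h4 | h4
      · exact Or.inl ⟨h1, h2, h4.symm⟩
      · exact Or.inr ⟨h1, h4⟩
    · intro n
      exact (hMon n).subset fun f hf => hf.1
    · intro n
      exact (hMon n).subset fun f hf => hf.1
  have hratio : ∀ (S : ℕ → Set F[X][X]) (L : ℝ),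
      Tendsto (fun n : ℕ => ((S n).ncard : ℝ) / (Fintype.card F : ℝ) ^ ((d - k) * n)) atTop (𝓝 L) →
      Tendsto (fun n : ℕ => ((S n).ncard : ℝ) / ((LeastN F D k d n).ncard : ℝ)) atTop
        (𝓝 (L / κ)) := by
    intro S L h
    have h1 := h.div hLN hκ0.ne'
    refine h1.congr fun n => ?_
    have := (hQ n).ne'
    simp only [Pi.div_apply]
    rw [div_div_div_cancel_right₀ this]
  refine ⟨hsum, hκ0, hLN, ?_, ?_, ?_⟩
  · have := hratio _ _ hEx
    rwa [div_self hκ0.ne'] at this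
  · intro p hp
    apply hratio
    refine close hQ (T := fun n => Por D d n p) (E := fun n => Many F D' (k + 1) (k + 1) d n)
      ?_ ?_ ?_ (fun n => (h₂ n).1) (hP p hp) hE
    · rintro n f ⟨h1, -, h3, h4⟩
      exact ⟨h1, h3, h4⟩
    · rintro n f ⟨h1, h3, h4⟩
      by_cases hi : Isotriv f
      · right
        refine hiso n f h1 hi ?_
        rw [← Set.ncard_pos (pre_finite h1 hd2), h3, hp.2.2.2.1]
        omega
      · exact Or.inl ⟨h1, hi, h3, h4⟩
    · intro n
      exact (hMon n).subset fun f hf => hf.1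
  · refine squeeze_zero (fun n => by positivity) (fun n => ?_) hE
    have h3 : {f | f ∈ Mon F d n ∧ Isotriv f ∧ (Pre D f).Nonempty} ⊆
        Many F D' (k + 1) (k + 1) d n := fun f hf => hiso n f hf.1 hf.2.1 hf.2.2
    have h4 := Set.ncard_le_ncard h3 (h₂ n).1
    gcongr

end Pool.Agent.R414.FF
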